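import Pool.Agent.W911.CE.Defs

set_option autoImplicit false

/-! Project CE (helper911), part BASE: the game against the adversary (helper723). -/

namespace Pool.Agent.W723.CE

open Finset Pool.Agent.NPC H568R2 Pool.Agent.H676
open Pool.Agent.H620R2.Gauge Pool.Agent.H591R3.PHG
open Pool.Agent.W911.CE

lemma cert_ex {I : Type*} [Fintype I] [DecidableEq I] : ∀ (r : ℕ) (f : (I → Bool) → Bool),
    DTr r f → ∀ v : I → Bool, ∃ Q : Finset I, Q.card ≤ r ∧
      ∀ w : I → Bool, (∀ i ∈ Q, w i = v i) → f w = f v := by
  intro r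
  induction r with
  | zero =>
    rintro f ⟨c, hc⟩ v
    exact ⟨∅, by simp, fun w _ => by rw [hc, hc]⟩
  | succ r ih =>
    rintro f (⟨c, hc⟩ | ⟨i, hi⟩) v
    · exact ⟨∅, by simp, fun w _ => by rw [hc, hc]⟩
    · obtain ⟨Q, hQ, h⟩ := ih _ (hi (v i)) v
      refine ⟨insert i Q, (Finset.card_insert_le _ _).trans (by omega), fun w hw => ?_⟩
      have h1 : f (Function.update w i (v i)) = f (Function.update v i (v i)) :=
        h w (fun j hj => hw j (Finset.mem_insert_of_mem hj))
      have h2 : w i = v i := hw i (Finset.mem_insert_self _ _)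
      have h3 : Function.update v i (v i) = v := Function.update_eq_self i v
      have h4 : Function.update w i (v i) = w := by
        rw [← h2]
        exact Function.update_eq_self i w
      rw [h3, h4] at h1
      exact h1

section

variable {K : ℕ}

open Classical in
/-- a certificate -/
noncomputable def ct (r : ℕ) (O : (Fin K → Bool) → Oracle) (v : Fin K → Bool) (q : List Bool) :
    Finset (Fin K) :=
  if h : DTr r (fun z => O z q) then (cert_ex r _ h v).choose else ∅

lemma ct_card (r : ℕ) (O : (Fin K → Bool) → Oracle) (v : Fin K → Bool) (q : List Bool) :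
    (ct r O v q).card ≤ r := by
  unfold ct
  split_ifs with h
  · exact (cert_ex r _ h v).choose_spec.1
  · simp

lemma ct_spec {r : ℕ} {O : (Fin K → Bool) → Oracle} {q : List Bool}
    (h : DTr r (fun z => O z q)) (v w : Fin K → Bool) (hw : ∀ i ∈ ct r O v q, w i = v i) :
    O w q = O v q := by
  unfold ct at hw
  rw [dif_pos h] at hw
  exact (cert_ex r _ h v).choose_spec.2 w hw

/-- the history -/
noncomputable def run (F0 : Set ℕ) (lo : ℕ) (s : Fin K → Option Bool) (act : List Bool → Act)
    (O : (Fin K → Bool) → Oracle) (z : Fin K → Bool) (k : ℕ) : List Bool :=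
  (stp act (O z) (fun _ => nx (Fe F0 lo (lv s z))))^[k] []

/-- the touched coordinates of one round -/
noncomputable def tch (r lo : ℕ) (act : List Bool → Act) (O : (Fin K → Bool) → Oracle)
    (v : Fin K → Bool) (a : List Bool) : Finset (Fin K) :=
  match act a with
  | .ask q => ct r O v q
  | .pres y => univ.filter (fun j : Fin K => lo + j.val = y)
  | .out y => univ.filter (fun j : Fin K => lo + j.val = y)

lemma one_card (lo y : ℕ) : (univ.filter (fun j : Fin K => lo + j.val = y)).card ≤ 1 := by
  rw [Finset.card_le_one]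
  intro a ha b hb
  rw [Finset.mem_filter] at ha hb
  apply Fin.ext
  omega

lemma tch_card {r : ℕ} (hr : 1 ≤ r) (lo : ℕ) (act : List Bool → Act)
    (O : (Fin K → Bool) → Oracle) (v : Fin K → Bool) (a : List Bool) :
    (tch r lo act O v a).card ≤ r := by
  unfold tch
  split
  · exact ct_card _ _ _ _
  · exact (one_card lo _).trans hr
  · exact (one_card lo _).trans hr

/-- the touched coordinates -/
noncomputable def RR (F0 : Set ℕ) (lo : ℕ) (s : Fin K → Option Bool) (act : List Bool → Act)
    (O : (Fin K → Bool) → Oracle) (r T : ℕ) (v : Fin K → Bool) : Finset (Fin K) :=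
  (range (T + 1)).biUnion (fun k => tch r lo act O v (run F0 lo s act O v k))

lemma RR_card {F0 : Set ℕ} {lo : ℕ} {s : Fin K → Option Bool} {act : List Bool → Act}
    {O : (Fin K → Bool) → Oracle} {r T : ℕ} (hr : 1 ≤ r) (v : Fin K → Bool) :
    (RR F0 lo s act O r T v).card ≤ (T + 1) * r := by
  unfold RR
  refine (Finset.card_biUnion_le_card_mul _ _ r fun k _ => tch_card hr lo act O v _).trans ?_
  rw [Finset.card_range]

/-- cutting off -/
def cut (z : Fin K → Bool) (θ : ℕ) : Fin K → Bool := fun j => if j.val < θ then z j else false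

/-- the interval of configurations -/
def In (z : Fin K → Bool) (θ : ℕ) (w : Fin K → Bool) : Prop :=
  (∀ j : Fin K, j.val < θ → w j = z j) ∧ ∀ j : Fin K, θ ≤ j.val → w j = true → z j = true

lemma In_self (z : Fin K → Bool) (θ : ℕ) : In z θ z := ⟨fun _ _ => rfl, fun _ _ h => h⟩

lemma In_cut (z : Fin K → Bool) (θ : ℕ) : In z θ (cut z θ) := by
  constructor
  · intro j hj
    unfold cut
    rw [if_pos hj]
  · intro j hj h
    unfold cut at h
    rw [if_neg (by omega)] at h
    exact absurd h (by simp)

lemma In.true {z w : Fin K → Bool} {θ : ℕ} (h : In z θ w) {j : Fin K} (hj : w j = true) :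
    z j = true := by
  by_cases h1 : j.val < θ
  · rw [← h.1 j h1]
    exact hj
  · exact h.2 j (by omega) hj

lemma In.mono {z w : Fin K → Bool} {θ θ' : ℕ} (h : In z θ' w) (hθ : θ ≤ θ') : In z θ w :=
  ⟨fun j hj => h.1 j (by omega), fun _ _ hw => h.true hw⟩

lemma mem_lv {s : Fin K → Option Bool} {z : Fin K → Bool} {j : Fin K} :
    j ∈ lv s z ↔ s j = none ∧ z j = true := by
  unfold lv
  simp

lemma In.lvs {s : Fin K → Option Bool} {z w : Fin K → Bool} {θ : ℕ} (h : In z θ w) {j : Fin K}
    (hj : j ∈ lv s w) : j ∈ lv s z := by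
  rw [mem_lv] at hj ⊢
  exact ⟨hj.1, h.true hj.2⟩

lemma In.lvt {s : Fin K → Option Bool} {z w : Fin K → Bool} {θ : ℕ} (h : In z θ w) {j : Fin K}
    (hj : j ∈ lv s z) (hθ : j.val < θ) : j ∈ lv s w := by
  rw [mem_lv] at hj ⊢
  exact ⟨hj.1, by rw [h.1 j hθ]; exact hj.2⟩

/-- valid thresholds -/
def Vd (s : Fin K → Option Bool) (z : Fin K → Bool) (θ : ℕ) : Prop :=
  θ = 0 ∨ ∃ j ∈ lv s z, θ = j.val + 1

/-- number of live true positions below the threshold -/
noncomputable def cc (s : Fin K → Option Bool) (z : Fin K → Bool) (θ : ℕ) : ℕ :=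
  ((lv s z).filter (fun j => j.val < θ)).card

lemma nx_eq {F : Set ℕ} {y e : ℕ} (hy : y ∈ F) (he : e ∈ F) (hye : y < e)
    (hmin : ∀ x ∈ F, y < x → e ≤ x) : nx F y = some e := by
  classical
  have hex : ∃ z, z ∈ F ∧ y < z := ⟨e, he, hye⟩
  unfold nx
  rw [if_pos hy, dif_pos hex]
  congr 1
  rw [Nat.find_eq_iff]
  refine ⟨⟨he, hye⟩, fun n hn h => ?_⟩
  have := hmin n h.1 h.2
  omega

lemma nx_not {F : Set ℕ} {y : ℕ} (hy : y ∉ F) : nx F y = some 0 := by
  unfold nx
  rw [if_neg hy]

lemma nx_mem {F : Set ℕ} {y e : ℕ} (h : nx F y = some e) : e = 0 ∨ e ∈ F := by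
  classical
  unfold nx at h
  split_ifs at h with h1 h2
  · have := Nat.find_spec h2
    rw [Option.some.injEq] at h
    rw [← h]
    exact Or.inr this.1
  · rw [Option.some.injEq] at h
    exact Or.inl h.symm

lemma pair_len (x w : List Bool) : (pairBits x w).length = 2 * x.length + 1 + w.length := by
  unfold pairBits
  rw [List.length_append, List.length_flatMap, List.length_cons]
  simp
  omega

lemma bits_len (n : ℕ) : (Nat.bits n).length = Nat.size n := by
  exact (Nat.size_eq_bits_len n)

lemma run_succ (F0 : Set ℕ) (lo : ℕ) (s : Fin K → Option Bool) (act : List Bool → Act)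
    (O : (Fin K → Bool) → Oracle) (z : Fin K → Bool) (k : ℕ) :
    run F0 lo s act O z (k + 1) =
      stp act (O z) (fun _ => nx (Fe F0 lo (lv s z))) (run F0 lo s act O z k) := by
  unfold run
  rw [Function.iterate_succ_apply']

lemma run_len {N : ℕ} {F0 : Set ℕ} {lo : ℕ} {s : Fin K → Option Bool} {act : List Bool → Act}
    {O : (Fin K → Bool) → Oracle} (hK : lo + K ≤ 2 ^ N) (hF : ∀ y ∈ F0, y < lo)
    (z : Fin K → Bool) (k : ℕ) : (run F0 lo s act O z k).length ≤ k * (2 * N + 5) := by
  induction k with
  | zero => simp [run]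
  | succ k ih =>
    rw [run_succ]
    set a := run F0 lo s act O z k with ha
    have hexp : (k + 1) * (2 * N + 5) = k * (2 * N + 5) + (2 * N + 5) := by ring
    rw [hexp]
    unfold stp
    split
    · omega
    · rw [pair_len, List.length_singleton]
      omega
    · rename_i y hy
      simp only
      rw [pair_len]
      cases hn : nx (Fe F0 lo (lv s z)) y with
      | none =>
        simp only [Pool.Agent.W911.CE.code, List.length_nil]
        omega
      | some e =>
        have he : Nat.size e ≤ N := by
          rw [Nat.size_le]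
          rcases nx_mem hn with h | h
          · rw [h]
            positivity
          · rcases h with h | ⟨j, _, h⟩
            · have := hF e h
              omega
            · have := j.isLt
              omega
        simp only [Pool.Agent.W911.CE.code, List.length_cons, bits_len]
        omega

lemma Fe_mono {F0 : Set ℕ} {lo : ℕ} {J J' : Finset (Fin K)} (h : ∀ j ∈ J, j ∈ J') {y : ℕ}
    (hy : y ∈ Fe F0 lo J) : y ∈ Fe F0 lo J' := by
  rcases hy with hy | ⟨j, hj, hy⟩
  · exact Or.inl hy
  · exact Or.inr ⟨j, h j hj, hy⟩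

lemma more {s : Fin K → Option Bool} {z : Fin K → Bool} {θ : ℕ}
    (h : cc s z θ < (lv s z).card) : ∃ j ∈ lv s z, θ ≤ j.val := by
  by_contra hc
  push Not at hc
  have : (lv s z).filter (fun j => j.val < θ) = lv s z := by
    rw [Finset.filter_eq_self]
    exact hc
  unfold cc at h
  rw [this] at h
  omega

/-- the deterministic claim -/
lemma det_claim {N : ℕ} {F0 : Set ℕ} {lo T r : ℕ} {s : Fin K → Option Bool}
    {act : List Bool → Act} {O : (Fin K → Bool) → Oracle} (hK : lo + K ≤ 2 ^ N)
    (hF : ∀ y ∈ F0, y < lo)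
    (hD : ∀ a q, a.length ≤ T * (2 * N + 5) → act a = Act.ask q → DTr r (fun z => O z q))
    (z : Fin K → Bool) (hz : T < (lv s z).card)
    (hgood : ∀ θ, Vd s z θ → cc s z θ ≤ T → ∀ i ∈ RR F0 lo s act O r T (cut z θ),
      θ ≤ i.val → z i = true → False) :
    ∀ k ≤ T, ∃ θ, Vd s z θ ∧ cc s z θ ≤ k ∧
      ∀ w, In z θ w → run F0 lo s act O w k = run F0 lo s act O z k := by
  intro k
  induction k with
  | zero =>
    intro _
    refine ⟨0, Or.inl rfl, ?_, fun w _ => rfl⟩
    unfold cc
    simp
  | succ k ih =>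
    intro hk
    obtain ⟨θ, hv, hc, hrun⟩ := ih (by omega)
    set a := run F0 lo s act O z k with ha
    have hlen : a.length ≤ T * (2 * N + 5) := by
      refine (run_len hK hF z k).trans ?_
      exact Nat.mul_le_mul_right _ (by omega)
    have hcut : run F0 lo s act O (cut z θ) k = a := hrun _ (In_cut z θ)
    have htch : ∀ i ∈ tch r lo act O (cut z θ) a, θ ≤ i.val → z i = true → False := by
      intro i hi
      apply hgood θ hv (by omega) i
      unfold RR
      rw [Finset.mem_biUnion]
      exact ⟨k, Finset.mem_range.mpr (by omega), by rw [hcut]; exact hi⟩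
    cases hact : act a with
    | out y =>
      refine ⟨θ, hv, by omega, fun w hw => ?_⟩
      rw [run_succ, run_succ, hrun w hw, ← ha]
      unfold stp
      rw [hact]
    | ask q =>
      refine ⟨θ, hv, by omega, ?_⟩
      have hq := hD a q hlen hact
      have hag : ∀ w, In z θ w → O w q = O (cut z θ) q := by
        intro w hw
        apply ct_spec hq
        intro i hi
        have hi' : i ∈ tch r lo act O (cut z θ) a := by
          unfold tch
          rw [hact]
          exact hi
        by_cases h1 : i.val < θ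
        · rw [hw.1 i h1, (In_cut z θ).1 i h1]
        · have h2 : z i ≠ true := fun h => htch i hi' (by omega) h
          have h3 : w i ≠ true := fun h => h2 (hw.true h)
          have h4 : cut z θ i ≠ true := fun h => h2 ((In_cut z θ).true h)
          have h5 : w i = false := by simpa using h3
          have h6 : cut z θ i = false := by simpa using h4
          rw [h5, h6]
      intro w hw
      rw [run_succ, run_succ, hrun w hw, ← ha]
      unfold stp
      rw [hact]
      simp only
      rw [hag w hw, hag z (In_self z θ)]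
    | pres y =>
      have hst : ∀ (w : Fin K → Bool), run F0 lo s act O w k = a →
          run F0 lo s act O w (k + 1) = pairBits (code (nx (Fe F0 lo (lv s w)) y)) a := by
        intro w hw
        rw [run_succ, hw]
        unfold stp
        rw [hact]
      have hz0 := hst z rfl
      by_cases hy : y ∈ Fe F0 lo (lv s z)
      · -- the number is a feasible solution
        have hyθ : y < lo + θ := by
          rcases hy with hy | ⟨j, hj, hy⟩
          · have := hF y hy
            omega
          · by_contra hcon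
            have hjt : j ∈ tch r lo act O (cut z θ) a := by
              unfold tch
              rw [hact]
              simp [hy]
            exact htch j hjt (by omega) (mem_lv.mp hj).2
        have hy' : ∀ w, In z θ w → y ∈ Fe F0 lo (lv s w) := by
          intro w hw
          rcases hy with hy | ⟨j, hj, hy⟩
          · exact Or.inl hy
          · exact Or.inr ⟨j, hw.lvt hj (by omega), hy⟩
        obtain ⟨j', hj', hj'θ⟩ := more (s := s) (z := z) (θ := θ) (by omega)
        classical
        have hex : ∃ x, x ∈ Fe F0 lo (lv s z) ∧ y < x :=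
          ⟨lo + j'.val, Or.inr ⟨j', hj', rfl⟩, by omega⟩
        obtain ⟨heF, hye⟩ := Nat.find_spec hex
        have hmin : ∀ x ∈ Fe F0 lo (lv s z), y < x → Nat.find hex ≤ x :=
          fun x hx hyx => Nat.find_min' hex ⟨hx, hyx⟩
        generalize Nat.find hex = e at heF hye hmin
        have hmin' : ∀ θ' w, In z θ' w → ∀ x ∈ Fe F0 lo (lv s w), y < x → e ≤ x :=
          fun θ' w hw x hx hyx => hmin x (Fe_mono (fun j hj => hw.lvs hj) hx) hyx
        have hzn : nx (Fe F0 lo (lv s z)) y = some e := nx_eq hy heF hye hmin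
        by_cases heθ : e < lo + θ
        · refine ⟨θ, hv, by omega, fun w hw => ?_⟩
          have heW : e ∈ Fe F0 lo (lv s w) := by
            rcases heF with h | ⟨j, hj, h⟩
            · exact Or.inl h
            · exact Or.inr ⟨j, hw.lvt hj (by omega), h⟩
          rw [hst w (hrun w hw), hz0, hzn, nx_eq (hy' w hw) heW hye (hmin' θ w hw)]
        · rcases heF with h | ⟨j, hj, h⟩
          · exact absurd (hF e h) (by omega)
          · refine ⟨j.val + 1, Or.inr ⟨j, hj, rfl⟩, ?_, fun w hw => ?_⟩
            · have hsub : (lv s z).filter (fun i => i.val < j.val + 1) ⊆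
                  insert j ((lv s z).filter (fun i => i.val < θ)) := by
                intro i hi
                rw [Finset.mem_filter] at hi
                rw [Finset.mem_insert, Finset.mem_filter]
                by_cases hij : i = j
                · exact Or.inl hij
                · right
                  refine ⟨hi.1, ?_⟩
                  by_contra hiθ
                  have h1 := hmin (lo + i.val) (Or.inr ⟨i, hi.1, rfl⟩) (by omega)
                  apply hij
                  apply Fin.ext
                  omega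
              have h1 := (Finset.card_le_card hsub).trans (Finset.card_insert_le _ _)
              unfold cc at hc ⊢
              omega
            · have hw' : In z θ w := hw.mono (by omega)
              have heW : e ∈ Fe F0 lo (lv s w) :=
                Or.inr ⟨j, hw.lvt hj (by omega), h⟩
              rw [hst w (hrun w hw'), hz0, hzn, nx_eq (hy' w hw') heW hye (hmin' _ w hw)]
      · refine ⟨θ, hv, by omega, fun w hw => ?_⟩
        have hyw : y ∉ Fe F0 lo (lv s w) := fun h => hy (Fe_mono (fun j hj => hw.lvs hj) h)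
        rw [hst w (hrun w hw), hz0, nx_not hy, nx_not hyw]

/-- if the run is right, a coordinate is hit -/
lemma hit {N : ℕ} {F0 : Set ℕ} {lo T r : ℕ} {s : Fin K → Option Bool}
    {act : List Bool → Act} {O : (Fin K → Bool) → Oracle} (hK : lo + K ≤ 2 ^ N)
    (hF : ∀ y ∈ F0, y < lo)
    (hD : ∀ a q, a.length ≤ T * (2 * N + 5) → act a = Act.ask q → DTr r (fun z => O z q))
    (z : Fin K → Bool) (hz : T < (lv s z).card) {y : ℕ}
    (hout : act (run F0 lo s act O z T) = Act.out y) (hy : IsGreatest (Fe F0 lo (lv s z)) y) :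
    ∃ θ, Vd s z θ ∧ cc s z θ ≤ T ∧ ∃ i ∈ RR F0 lo s act O r T (cut z θ),
      θ ≤ i.val ∧ z i = true := by
  by_contra hcon
  have hgood : ∀ θ, Vd s z θ → cc s z θ ≤ T → ∀ i ∈ RR F0 lo s act O r T (cut z θ),
      θ ≤ i.val → z i = true → False :=
    fun θ h1 h2 i h3 h4 h5 => hcon ⟨θ, h1, h2, i, h3, h4, h5⟩
  obtain ⟨θ, hv, hc, hrun⟩ := det_claim hK hF hD z hz hgood T le_rfl
  obtain ⟨j', hj', hj'θ⟩ := more (s := s) (z := z) (θ := θ) (by omega)
  have h1 : lo + j'.val ≤ y := hy.2 (Or.inr ⟨j', hj', rfl⟩)
  rcases hy.1 with h | ⟨j, hj, h⟩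
  · exact absurd (hF y h) (by omega)
  · refine hgood θ hv hc j ?_ (by omega) (mem_lv.mp hj).2
    unfold RR
    rw [Finset.mem_biUnion]
    refine ⟨T, Finset.mem_range.mpr (by omega), ?_⟩
    rw [hrun _ (In_cut z θ)]
    unfold tch
    rw [hout]
    simp [h]

/-! ### probability -/

lemma cut_upd (z : Fin K → Bool) (θ : ℕ) (i : Fin K) (b : Bool) (hi : θ ≤ i.val) :
    cut (Function.update z i b) θ = cut z θ := by
  funext j
  unfold cut
  by_cases hj : j.val < θ
  · rw [if_pos hj, if_pos hj, Function.update_of_ne]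
    intro h
    rw [h] at hj
    omega
  · rw [if_neg hj, if_neg hj]

lemma lv_upd (s : Fin K → Option Bool) (z : Fin K → Bool) (i : Fin K) (b : Bool)
    (j : Fin K) (hj : j ≠ i) : j ∈ lv s (Function.update z i b) ↔ j ∈ lv s z := by
  rw [mem_lv, mem_lv, Function.update_of_ne hj]

lemma cc_upd (s : Fin K → Option Bool) (z : Fin K → Bool) (θ : ℕ) (i : Fin K) (b : Bool)
    (hi : θ ≤ i.val) : cc s (Function.update z i b) θ = cc s z θ := by
  unfold cc
  congr 1
  ext j
  rw [Finset.mem_filter, Finset.mem_filter]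
  constructor
  · rintro ⟨h1, h2⟩
    exact ⟨(lv_upd s z i b j (by rintro rfl; omega)).mp h1, h2⟩
  · rintro ⟨h1, h2⟩
    exact ⟨(lv_upd s z i b j (by rintro rfl; omega)).mpr h1, h2⟩

lemma Vd_upd (s : Fin K → Option Bool) (z : Fin K → Bool) (θ : ℕ) (i : Fin K) (b : Bool)
    (hi : θ ≤ i.val) : Vd s (Function.update z i b) θ ↔ Vd s z θ := by
  unfold Vd
  constructor
  · rintro (h | ⟨j, hj, h⟩)
    · exact Or.inl h
    · exact Or.inr ⟨j, (lv_upd s z i b j (by rintro rfl; omega)).mp hj, h⟩
  · rintro (h | ⟨j, hj, h⟩)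
    · exact Or.inl h
    · exact Or.inr ⟨j, (lv_upd s z i b j (by rintro rfl; omega)).mpr hj, h⟩

lemma Vd_inj {s : Fin K → Option Bool} {z : Fin K → Bool} {θ θ' : ℕ} (h' : Vd s z θ')
    (hc : cc s z θ = cc s z θ') : θ' ≤ θ := by
  by_contra hlt
  push Not at hlt
  rcases h' with h' | ⟨j, hj, h'⟩
  · omega
  · have hsub : (lv s z).filter (fun i => i.val < θ) ⊂ (lv s z).filter (fun i => i.val < θ') := by
      rw [Finset.ssubset_iff_of_subset]
      · refine ⟨j, ?_, ?_⟩
        · rw [Finset.mem_filter]
          exact ⟨hj, by omega⟩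
        · rw [Finset.mem_filter]
          rintro ⟨_, h⟩
          omega
      · intro i hi
        rw [Finset.mem_filter] at hi ⊢
        exact ⟨hi.1, by omega⟩
    have := Finset.card_lt_card hsub
    unfold cc at hc
    omega

lemma ber_sum (t : ℝ) : ∑ b, ber t b = 1 := by
  unfold ber
  simp

lemma ber_nn {t : ℝ} (h0 : 0 ≤ t) (h1 : t ≤ 1) (b : Bool) : 0 ≤ ber t b := by
  unfold ber
  split_ifs <;> linarith

lemma Ex_ind (t : ℝ) (φ : (Fin K → Bool) → ℝ) (i : Fin K)
    (hφ : ∀ z b, φ (Function.update z i b) = φ z) :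
    Ex (ber t) (fun z => φ z * (if z i = true then (1 : ℝ) else 0)) = t * Ex (ber t) φ := by
  rw [Ex_resample (ber_sum t) _ i, ← Ex_smul]
  congr 1
  funext z
  simp only [hφ, Function.update_self, Fintype.sum_bool, ber]
  simp

open Classical in
/-- the indicator functions -/
noncomputable def fi (F0 : Set ℕ) (lo : ℕ) (s : Fin K → Option Bool) (act : List Bool → Act)
    (O : (Fin K → Bool) → Oracle) (r T c θ : ℕ) (i : Fin K) (z : Fin K → Bool) : ℝ :=
  if (Vd s z θ ∧ cc s z θ = c) ∧ i ∈ RR F0 lo s act O r T (cut z θ) ∧ θ ≤ i.val then 1 else 0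

lemma fi_nn (F0 : Set ℕ) (lo : ℕ) (s : Fin K → Option Bool) (act : List Bool → Act)
    (O : (Fin K → Bool) → Oracle) (r T c θ : ℕ) (i : Fin K) (z : Fin K → Bool) :
    0 ≤ fi F0 lo s act O r T c θ i z := by
  unfold fi
  split_ifs <;> norm_num

lemma fi_upd (F0 : Set ℕ) (lo : ℕ) (s : Fin K → Option Bool) (act : List Bool → Act)
    (O : (Fin K → Bool) → Oracle) (r T c θ : ℕ) (i : Fin K) (z : Fin K → Bool) (b : Bool) :
    fi F0 lo s act O r T c θ i (Function.update z i b) = fi F0 lo s act O r T c θ i z := by
  unfold fi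
  by_cases hi : θ ≤ i.val
  · rw [cut_upd z θ i b hi, cc_upd s z θ i b hi]
    have := Vd_upd s z θ i b hi
    by_cases h : Vd s z θ
    · simp [h, this.mpr h]
    · have h2 : ¬ Vd s (Function.update z i b) θ := fun h' => h (this.mp h')
      simp [h, h2]
  · rw [if_neg (fun h => hi h.2.2), if_neg (fun h => hi h.2.2)]

lemma fi_sum {F0 : Set ℕ} {lo : ℕ} {s : Fin K → Option Bool} {act : List Bool → Act}
    {O : (Fin K → Bool) → Oracle} {r T : ℕ} (hr : 1 ≤ r) (z : Fin K → Bool) :
    ∑ c ∈ range (T + 1), ∑ θ ∈ range (K + 1), ∑ i : Fin K, fi F0 lo s act O r T c θ i z ≤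
      (T + 1) * ((T + 1) * r) := by
  classical
  have h1 : ∀ c θ, ∑ i : Fin K, fi F0 lo s act O r T c θ i z ≤
      (if Vd s z θ ∧ cc s z θ = c then ((T + 1) * r : ℝ) else 0) := by
    intro c θ
    split_ifs with h
    · calc ∑ i : Fin K, fi F0 lo s act O r T c θ i z
          ≤ ∑ i : Fin K, (if i ∈ RR F0 lo s act O r T (cut z θ) then (1 : ℝ) else 0) := by
            apply Finset.sum_le_sum
            intro i _
            unfold fi
            split_ifs with h2 h3
            · exact le_rfl
            · exact absurd h2.2.1 h3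
            · norm_num
            · exact le_rfl
        _ = ((RR F0 lo s act O r T (cut z θ)).card : ℝ) := by
            rw [Finset.sum_boole, Finset.filter_mem_eq_inter, Finset.univ_inter]
        _ ≤ (T + 1) * r := by
            have := RR_card (F0 := F0) (lo := lo) (s := s) (act := act) (O := O) (r := r) (T := T)
              hr (cut z θ)
            exact_mod_cast this
    · apply le_of_eq
      apply Finset.sum_eq_zero
      intro i _
      unfold fi
      rw [if_neg (fun h' => h h'.1)]
  have h2 : ∀ c, ∑ θ ∈ range (K + 1), ∑ i : Fin K, fi F0 lo s act O r T c θ i z ≤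
      (T + 1) * r := by
    intro c
    refine (Finset.sum_le_sum fun θ _ => h1 c θ).trans ?_
    have h3 : ((range (K + 1)).filter (fun θ => Vd s z θ ∧ cc s z θ = c)).card ≤ 1 := by
      rw [Finset.card_le_one]
      intro a ha b hb
      rw [Finset.mem_filter] at ha hb
      apply le_antisymm
      · exact Vd_inj ha.2.1 (by rw [ha.2.2, hb.2.2])
      · exact Vd_inj hb.2.1 (by rw [ha.2.2, hb.2.2])
    rw [← Finset.sum_filter, Finset.sum_const, nsmul_eq_mul]
    have h4 : (((range (K + 1)).filter (fun θ => Vd s z θ ∧ cc s z θ = c)).card : ℝ) ≤ 1 := by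
      exact_mod_cast h3
    have h5 : (0 : ℝ) ≤ (T + 1) * r := by positivity
    nlinarith
  refine (Finset.sum_le_sum fun c _ => h2 c).trans ?_
  rw [Finset.sum_const, Finset.card_range, nsmul_eq_mul]
  push_cast
  exact le_rfl

end

theorem base_stm : BaseStm := by
  classical
  intro K N lo T r t F0 s act O ht0 ht1 hK hF hr hD
  have hpt : ∀ z : Fin K → Bool,
      (if ∃ y, act ((stp act (O z) (fun _ => nx (Fe F0 lo (lv s z))))^[T] []) = Act.out y ∧
        IsGreatest (Fe F0 lo (lv s z)) y then (1 : ℝ) else 0) ≤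
      (if (lv s z).card ≤ T then (1 : ℝ) else 0) +
        ∑ c ∈ range (T + 1), ∑ θ ∈ range (K + 1), ∑ i : Fin K,
          fi F0 lo s act O r T c θ i z * (if z i = true then (1 : ℝ) else 0) := by
    intro z
    have hnn : ∀ (c θ : ℕ) (i : Fin K),
        0 ≤ fi F0 lo s act O r T c θ i z * (if z i = true then (1 : ℝ) else 0) := by
      intro c θ i
      apply mul_nonneg (fi_nn _ _ _ _ _ _ _ _ _ _ _)
      split_ifs <;> norm_num
    have hsn : 0 ≤ ∑ c ∈ range (T + 1), ∑ θ ∈ range (K + 1), ∑ i : Fin K,
        fi F0 lo s act O r T c θ i z * (if z i = true then (1 : ℝ) else 0) :=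
      Finset.sum_nonneg fun c _ => Finset.sum_nonneg fun θ _ =>
        Finset.sum_nonneg fun i _ => hnn c θ i
    by_cases hc : (lv s z).card ≤ T
    · rw [if_pos hc]
      split_ifs <;> linarith
    · rw [if_neg hc, zero_add]
      split_ifs with hy
      · obtain ⟨y, hout, hy⟩ := hy
        obtain ⟨θ, hv, hcc, i, hi, hθi, hzi⟩ := hit hK hF hD z (by omega) hout hy
        have hone : (1 : ℝ) = fi F0 lo s act O r T (cc s z θ) θ i z *
            (if z i = true then (1 : ℝ) else 0) := by
          unfold fi
          rw [if_pos ⟨⟨hv, rfl⟩, hi, hθi⟩, if_pos hzi, one_mul]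
        refine hone.le.trans ?_
        have hθK : θ ∈ range (K + 1) := Finset.mem_range.mpr (by have := i.isLt; omega)
        have hcT : cc s z θ ∈ range (T + 1) := Finset.mem_range.mpr (by omega)
        refine le_trans ?_ (Finset.single_le_sum (f := fun c => ∑ θ ∈ range (K + 1),
          ∑ i : Fin K, fi F0 lo s act O r T c θ i z * (if z i = true then (1 : ℝ) else 0))
          (fun c _ => Finset.sum_nonneg fun θ _ => Finset.sum_nonneg fun i _ => hnn c θ i) hcT)
        refine le_trans ?_ (Finset.single_le_sum (f := fun θ' =>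
          ∑ i : Fin K, fi F0 lo s act O r T (cc s z θ) θ' i z *
            (if z i = true then (1 : ℝ) else 0))
          (fun θ' _ => Finset.sum_nonneg fun i _ => hnn _ θ' i) hθK)
        exact Finset.single_le_sum (f := fun i' =>
          fi F0 lo s act O r T (cc s z θ) θ i' z * (if z i' = true then (1 : ℝ) else 0))
          (fun i' _ => hnn _ θ i') (Finset.mem_univ i)
      · exact hsn
  refine (Ex_mono (ber_nn ht0 ht1) hpt).trans ?_
  rw [Ex_add]
  apply add_le_add le_rfl
  have e1 : Ex (ber t) (fun z : Fin K → Bool => ∑ c ∈ range (T + 1), ∑ θ ∈ range (K + 1),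
      ∑ i : Fin K, fi F0 lo s act O r T c θ i z * (if z i = true then (1 : ℝ) else 0)) =
      t * Ex (ber t) (fun z : Fin K → Bool => ∑ c ∈ range (T + 1), ∑ θ ∈ range (K + 1),
        ∑ i : Fin K, fi F0 lo s act O r T c θ i z) := by
    simp only [Ex_sum, Finset.mul_sum]
    refine Finset.sum_congr rfl fun c _ => Finset.sum_congr rfl fun θ _ =>
      Finset.sum_congr rfl fun i _ => ?_
    exact Ex_ind t _ i (fun z b => fi_upd F0 lo s act O r T c θ i z b)
  rw [e1, mul_comm]
  apply mul_le_mul_of_nonneg_right _ ht0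
  refine (Ex_mono (ber_nn ht0 ht1) (fun z => fi_sum hr z)).trans ?_
  rw [Ex_const (ber_sum t)]

end Pool.Agent.W723.CE

namespace Pool.Agent.W911.CE

theorem base_stm : BaseStm := Pool.Agent.W723.CE.base_stm

end Pool.Agent.W911.CE
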