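import Pool.Agent.W911.CE.Run
import Pool.Agent.W911.KM.Blk

/-!
# The trees in the oracle
-/

set_option autoImplicit false

namespace Pool.Agent.W911.CE

open Finset Pool.Agent.NPC H568R2 Pool.Agent.H676 Pool.Agent.H622R2
open Pool.Agent.H620R2.Gauge Pool.Agent.H591R3.PHG Pool.Agent.H591R3.PHG.FinalAux
open Pool.Agent.W911.AL Pool.Agent.W911.KM

section

variable {X : Type} [Fintype X] [DecidableEq X] {xs : X → List Bool} {ℓ w N : ℕ} {as : List ℕ}

/-- the string of a leaf -/
def lg (xs : X → List Bool) (w : ℕ) (as : List ℕ) (g : Idx X (w :: pw as)) : List Bool :=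
  addr xs as g.1 ++ List.replicate g.2.val true

/-- the position of a leaf -/
def pg (hN : ∀ g : Idx X (w :: pw as), idx (lg xs w as g) < N)
    (g : Idx X (w :: pw as)) : Fin N := ⟨idx (lg xs w as g), hN g⟩

theorem lg_inj (hx : Function.Injective xs) (hl : ∀ j, (xs j).length = ℓ) :
    Function.Injective (lg xs w as) := leaf_inj xs hx ℓ hl as w

theorem pg_inj (hx : Function.Injective xs) (hl : ∀ j, (xs j).length = ℓ)
    (hN : ∀ g : Idx X (w :: pw as), idx (lg xs w as g) < N) :
    Function.Injective (pg hN) := by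
  intro g g' h
  have h1 : idx (lg xs w as g) = idx (lg xs w as g') := by
    simpa [pg] using h
  exact lg_inj hx hl (by rw [← str_idx (lg xs w as g), h1, str_idx])

open Classical in
/-- the bits of the leaves are replaced -/
noncomputable def og (hN : ∀ g : Idx X (w :: pw as), idx (lg xs w as g) < N) (a : Fin N → Bool)
    (z : Idx X (w :: pw as) → Bool) : Fin N → Bool :=
  fun i => if h : ∃ j, pg hN j = i then z h.choose else a i

theorem og_lg (hx : Function.Injective xs) (hl : ∀ j, (xs j).length = ℓ)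
    (hN : ∀ g : Idx X (w :: pw as), idx (lg xs w as g) < N)
    (a : Fin N → Bool) (z : Idx X (w :: pw as) → Bool) (g : Idx X (w :: pw as)) :
    orc N (og hN a z) (lg xs w as g) = z g := by
  have h1 : idx (lg xs w as g) < N := hN g
  have h2 : orc N (og hN a z) (lg xs w as g) = og hN a z (pg hN g) := by
    unfold orc
    rw [dif_pos h1]
    rfl
  rw [h2]
  unfold og
  have hex : ∃ j, pg hN j = pg hN g := ⟨g, rfl⟩
  rw [dif_pos hex]
  exact congrArg z (pg_inj hx hl hN hex.choose_spec)

theorem og_other (hN : ∀ g : Idx X (w :: pw as), idx (lg xs w as g) < N)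
    (a : Fin N → Bool) (z : Idx X (w :: pw as) → Bool)
    (q : List Bool) (hq : ∀ g, lg xs w as g ≠ q) :
    orc N (og hN a z) q = orc N a q := by
  unfold orc
  by_cases h1 : idx q < N
  · rw [dif_pos h1, dif_pos h1]
    unfold og
    rw [dif_neg]
    rintro ⟨g, hg⟩
    have h2 : idx (lg xs w as g) = idx q := by
      simpa [pg] using congrArg Fin.val hg
    apply hq g
    rw [← str_idx (lg xs w as g), h2, str_idx]
  · rw [dif_neg h1, dif_neg h1]

theorem lg_start (g : Idx X (w :: pw as)) : ∃ (j : X) (s : List Bool), lg xs w as g = xs j ++ s := by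
  obtain ⟨y, s, hs⟩ := addr_start xs xs (fun y => ⟨[], by rw [List.append_nil]⟩) as g.1
  exact ⟨y, s ++ List.replicate g.2.val true, by unfold lg; rw [hs, List.append_assoc]⟩

/-- the other trees do not change -/
theorem fold_other (hl : ∀ j, (xs j).length = ℓ)
    (hN : ∀ g : Idx X (w :: pw as), idx (lg xs w as g) < N)
    (a : Fin N → Bool) (z : Idx X (w :: pw as) → Bool)
    (q : List Bool) (hql : q.length = ℓ) (hq : ∀ j, xs j ≠ q) (bs : List ℕ) (v : ℕ) :
    (bs.foldl (fun v a => up a v) (bitv (orc N (og hN a z)) v)) q =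
      (bs.foldl (fun v a => up a v) (bitv (orc N a) v)) q := by
  have h1 : ∀ s, orc N (og hN a z) (q ++ s) = orc N a (q ++ s) := by
    intro s
    apply og_other
    intro g hg
    obtain ⟨j, s', hs'⟩ := lg_start (xs := xs) g
    rw [hs'] at hg
    exact hq j (List.append_inj_left hg (by rw [hl, hql]))
  have h2 := fold_congr bs (q := q) (v := bitv (orc N (og hN a z)) v)
    (v' := bitv (orc N a) v) (fun s => bitv_congr h1 v s) []
  rwa [List.append_nil] at h2

/-- the values of the trees -/
theorem fold_tree (hx : Function.Injective xs) (hl : ∀ j, (xs j).length = ℓ)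
    (hN : ∀ g : Idx X (w :: pw as), idx (lg xs w as g) < N)
    (a : Fin N → Bool) (z : Idx X (w :: pw as) → Bool) (j : X) :
    (as.foldl (fun v a => up a v) (bitv (orc N (og hN a z)) w)) (xs j) =
      Tr (w :: pw as) (val (fun _ => none) z) j := by
  rw [← tr_leaves]
  congr 1
  funext g
  exact og_lg hx hl hN a z g

end

/-- A counterexample computation, and an algorithm and a polynomial for a set in the
level `Σ_κ`. -/
structure Par where
  M : CAlg
  V : Alg
  p : Polynomial ℕ
  κ : ℕ

/-- the feasible solutions for `2 ^ N - 1` -/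
def FS (κ N : ℕ) (A : Oracle) : Set ℕ := {y | CC κ A (2 ^ N - 1) y}

theorem size_pred {N : ℕ} (hN : 1 ≤ N) : Nat.size (2 ^ N - 1) = N := by
  have h0 : 0 < 2 ^ N := by positivity
  apply le_antisymm
  · exact Nat.size_le.2 (by omega)
  · by_contra hcon
    push Not at hcon
    have h1 : Nat.size (2 ^ N - 1) ≤ N - 1 := by omega
    have h2 := Nat.size_le.1 h1
    have h3 : 2 ^ N = 2 ^ (N - 1) * 2 := by
      rw [← pow_succ]
      congr 1
      omega
    have h4 : 0 < 2 ^ (N - 1) := by positivity
    omega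

theorem mem_FS {κ N : ℕ} (hN : 1 ≤ N) {A : Oracle} {y : ℕ} :
    y ∈ FS κ N A ↔ y < 2 ^ N ∧ (y = 0 ∨ HV κ N A y = true) := by
  have h0 : 0 < 2 ^ N := by positivity
  show (y ≤ 2 ^ N - 1 ∧ (y = 0 ∨ HV κ (Nat.size (2 ^ N - 1)) A y = true)) ↔ _
  rw [size_pred hN]
  constructor
  · rintro ⟨h1, h2⟩
    exact ⟨by omega, h2⟩
  · rintro ⟨h1, h2⟩
    exact ⟨by omega, h2⟩

/-- the indicator of the success on the input `2 ^ N - 1` -/
noncomputable def SUC (θ : Par) (N : ℕ) (A : Oracle) : ℝ :=
  PHI (θ.M.act (2 ^ N - 1)) (θ.M.p.eval N) (FS θ.κ N A) (OB θ.V θ.p θ.κ A)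

/-- the conditions for the parameters -/
structure Cond (θ : Par) (qb : Polynomial ℕ) (N u L m : ℕ) : Prop where
  hn : 5 ≤ cn N
  hu : 8 * u ≤ cn N
  hL : qb.eval (2 * N + 1 + θ.M.p.eval N * (2 * N + 5)) ≤ L
  hm : θ.p.eval L ≤ m
  hV : θ.V.p.eval (2 * (L + θ.κ * (2 * m + 1)) + 1 +
    θ.κ * θ.p.eval (L + θ.κ * (2 * m + 1))) ≤ 2 ^ (2 * u)
  hT : 4 * θ.M.p.eval N ≤ 2 ^ cn N

/-- the number of trees -/
theorem exists_K {n : ℕ} (hn : 5 ≤ n) {law : Option Bool → ℝ} (hinv : Inv n law) : ∃ K : ℕ,
    2 ^ n ≤ (K : ℝ) * (law none / 2 ^ (4 * n) + law (some true)) ∧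
    (K : ℝ) * (law none / 2 ^ (4 * n) + law (some true)) ≤ 2 ^ (n + 1) ∧ K < 2 ^ (54 * n) := by
  set p := law none / 2 ^ (4 * n) + law (some true) with hp
  have h1 : 0 < p := lt_of_lt_of_le (Real.exp_pos _) hinv.lo
  have h2 : p ≤ 1 := hinv.hi.trans (by
    rw [div_le_one (by positivity)]
    exact one_le_pow₀ (by norm_num))
  have h3 : 1 / (2 : ℝ) ^ (52 * n) ≤ p := (exp36_ge n).trans hinv.lo
  refine ⟨⌈(2 : ℝ) ^ n / p⌉₊, ?_, ?_, ?_⟩
  · have := Nat.le_ceil ((2 : ℝ) ^ n / p)
    rwa [div_le_iff₀ h1] at this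
  · have h4 := Nat.ceil_lt_add_one (show (0 : ℝ) ≤ 2 ^ n / p by positivity)
    have h5 : (⌈(2 : ℝ) ^ n / p⌉₊ : ℝ) * p ≤ (2 ^ n / p + 1) * p :=
      mul_le_mul_of_nonneg_right h4.le h1.le
    have h6 : ((2 : ℝ) ^ n / p + 1) * p = 2 ^ n + p := by field_simp
    have h7 : (1 : ℝ) ≤ 2 ^ n := one_le_pow₀ (by norm_num)
    rw [pow_succ]
    linarith
  · have h4 := Nat.ceil_lt_add_one (show (0 : ℝ) ≤ 2 ^ n / p by positivity)
    have h5 : (2 : ℝ) ^ n / p ≤ 2 ^ (53 * n) := by
      rw [div_le_iff₀ h1]
      have h6 : (2 : ℝ) ^ (53 * n) = 2 ^ n * 2 ^ (52 * n) := by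
        rw [← pow_add]; congr 1; ring
      rw [h6, mul_assoc]
      have h7 : 1 ≤ (2 : ℝ) ^ (52 * n) * p := by
        rw [div_le_iff₀ (by positivity)] at h3
        linarith
      have h8 : (0 : ℝ) < 2 ^ n := by positivity
      nlinarith
    have h6 : (⌈(2 : ℝ) ^ n / p⌉₊ : ℝ) < 2 ^ (54 * n) := by
      have h7 : (2 : ℝ) ^ (53 * n) + 1 ≤ 2 ^ (54 * n) := by
        have h8 : (2 : ℝ) ^ (54 * n) = 2 ^ (53 * n) * 2 ^ n := by
          rw [← pow_add]; congr 1; ring
        have h9 : (2 : ℝ) ≤ 2 ^ n := by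
          calc (2 : ℝ) = 2 ^ 1 := (pow_one _).symm
            _ ≤ _ := pow_le_pow_right₀ (by norm_num) (by omega)
        have h10 : (1 : ℝ) ≤ 2 ^ (53 * n) := one_le_pow₀ (by norm_num)
        rw [h8]
        nlinarith
      linarith
    exact_mod_cast h6

set_option maxHeartbeats 800000 in
theorem cblock (hbase : BaseStm) (hcnt : CntStm) (hsiz : SizStm) (θ : Par) {qb : Polynomial ℕ}
    (hqb : ∀ y : List Bool, (θ.M.D y).length ≤ qb.eval y.length)
    {N u L m : ℕ} (hc : Cond θ qb N u L m) {Nb : ℕ}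
    (hNb : 2 ^ (N + (exl (cn N) θ.κ).sum + 8 * cn N + 1) ≤ Nb) :
    Ex unif (fun a : Fin Nb → Bool => SUC θ N (orc Nb a)) ≤
      (θ.M.p.eval N + 1) * ((θ.M.p.eval N + 1) * 2 ^ (2 * u)) * (1 / 2 ^ (4 * cn N)) +
        err θ.κ (L + θ.κ * (2 * m + 1)) (2 ^ (2 * u)) + 16 / 2 ^ cn N := by
  classical
  set n := cn N with hn
  have hn5 : 5 ≤ n := hc.hn
  have hnN : 64 * n ≤ N := by
    rw [hn]; unfold cn; omega
  have hN1 : 1 ≤ N := by omega
  obtain ⟨_, law', hinv, _, hlaw⟩ := hsiz n θ.κ hn5
  obtain ⟨K, hK1, hK2, hK3⟩ := exists_K hn5 hinv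
  have hKN : K < 2 ^ N := lt_of_lt_of_le hK3 (Nat.pow_le_pow_right (by norm_num) (by omega))
  set lo : ℕ := 2 ^ N - K with hlo
  have hloK : lo + K = 2 ^ N := by omega
  have hlo0 : 0 < lo := by omega
  set as := exl n θ.κ with has
  have hlenas : as.length = θ.κ := by
    have : ∀ (k P : ℕ), (exps n (BN n θ.κ) k P).length = k := by
      intro k
      induction k with
      | zero => intro P; rfl
      | succ k ih => intro P; simp [exps, ih]
    exact this _ _
  set xs : Fin K → List Bool := fun j => bitsOf N (lo + j.val) with hxs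
  have hxl : ∀ j, (xs j).length = N := fun j => length_bitsOf N _
  have hxi : Function.Injective xs := by
    intro j j' h
    have h1 := bitsOf_inj (n := N) (by have := j.isLt; omega) (by have := j'.isLt; omega) h
    exact Fin.ext (by omega)
  have hpos : ∀ g : Idx (Fin K) (8 * n :: pw as), idx (lg xs (8 * n) as g) < Nb := by
    intro g
    have h1 := leaf_len xs N hxl as (8 * n) g
    have h2 := idx_lt (lg xs (8 * n) as g)
    have h3 : 2 ^ ((lg xs (8 * n) as g).length + 1) ≤ Nb := by
      refine le_trans (Nat.pow_le_pow_right (by norm_num) ?_) hNb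
      have h4 : (lg xs (8 * n) as g).length ≤ N + as.sum + 8 * n := h1
      omega
    omega
  have hinj := pg_inj hxi hxl hpos
  rw [Ex_overwrite (pg hpos) hinj (fun a : Fin Nb → Bool => SUC θ N (orc Nb a))]
  set T : ℕ := θ.M.p.eval N with hT
  set act := θ.M.act (2 ^ N - 1) with hact
  set γ : ℝ := (T + 1) * ((T + 1) * 2 ^ (2 * u)) * (1 / 2 ^ (4 * n)) with hγ
  have hγ0 : 0 ≤ γ := by positivity
  have hactL : ∀ a q, a.length ≤ T * (2 * N + 5) → act a = Act.ask q → q.length ≤ L := by
    intro a q ha h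
    have h0 : 0 < 2 ^ N := by positivity
    exact (act_len hqb (N := N) (by omega) a q ha h).trans hc.hL
  have hkey : ∀ a : Fin Nb → Bool,
      Ex (ber (1 / 2)) (fun z : Idx (Fin K) (8 * n :: pw as) → Bool =>
        SUC θ N (orc Nb (og hpos a z))) ≤
      γ + err θ.κ (L + θ.κ * (2 * m + 1)) (2 ^ (2 * u)) + 16 / 2 ^ n := by
    intro a
    set F0 : Set ℕ := {y | y < lo ∧ (y = 0 ∨ HV θ.κ N (orc Nb a) y = true)} with hF0
    set Fv : (Fin K → Bool) → Set ℕ := fun v => Fe F0 lo (univ.filter (fun j => v j = true))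
      with hFv
    have hFvN : ∀ v, ∀ y ∈ Fv v, y < 2 ^ N := by
      rintro v y (h | ⟨j, _, rfl⟩)
      · have := h.1
        omega
      · have := j.isLt
        omega
    set Φ : (Fin K → Bool) → Oracle → ℝ := fun v O => PHI act T (Fv v) O with hΦ
    set β : (Fin K → Option Bool) → ℝ := fun s => (if ∃ j, s j = some true then (1 : ℝ) else 0) +
      Ex (ber (1 / 2 ^ (4 * n))) (fun z : Fin K → Bool =>
        if (lv s z).card ≤ T then (1 : ℝ) else 0) with hβ
    have ht0 : (0 : ℝ) ≤ 1 / 2 ^ (4 * n) := by positivity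
    have ht1 : (1 : ℝ) / 2 ^ (4 * n) ≤ 1 := by
      rw [div_le_one (by positivity)]
      exact one_le_pow₀ (by norm_num)
    have hE0 : ∀ s : Fin K → Option Bool, 0 ≤ Ex (ber (1 / 2 ^ (4 * n)))
        (fun z : Fin K → Bool => if (lv s z).card ≤ T then (1 : ℝ) else 0) := by
      intro s
      refine (le_of_eq (Ex_const (ber_sum_m (1 / 2 ^ (4 * n))) 0).symm).trans
        (Ex_mono (F := fun _ => (0 : ℝ)) (ber_nn ht0 ht1) fun z => ?_)
      split_ifs <;> norm_num
    have hβ0 : ∀ s, 0 ≤ β s := by
      intro s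
      have := hE0 s
      rw [hβ]
      simp only
      split_ifs <;> linarith
    have hb : ∀ (s : Fin K → Option Bool) (F : List Bool → (Fin K → Bool) → Bool),
      (∀ y : List Bool, y.length ≤ L → DTr (2 ^ (2 * u)) (F y)) →
      Ex (ber (1 / 2 ^ (4 * n))) (fun z : Fin K → Bool => Φ (val s z) (fun q => F q z)) ≤
        γ + β s := by
      intro s F hF
      by_cases hs : ∃ j, s j = some true
      · have h1 : Ex (ber (1 / 2 ^ (4 * n))) (fun z : Fin K → Bool =>
            Φ (val s z) (fun q => F q z)) ≤ 1 :=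
          (Ex_mono (G := fun _ => (1 : ℝ)) (ber_nn ht0 ht1) fun z => PHI_le _ _ _ _).trans
            (le_of_eq (Ex_const (ber_sum_m _) 1))
        have h2 := hE0 s
        rw [hβ]
        simp only
        rw [if_pos hs]
        linarith
      · have h1 := hbase K N lo T (2 ^ (2 * u)) (1 / 2 ^ (4 * n)) F0 s act
          (fun z q => F q z) ht0 ht1 hloK.le (fun y hy => hy.1) Nat.one_le_two_pow
          (fun a q ha h => hF q (hactL a q ha h))
        have h2 : ∀ z : Fin K → Bool, Fv (val s z) = Fe F0 lo (lv s z) := by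
          intro z
          rw [hFv]
          simp only
          congr 1
          ext j
          unfold lv Pool.Agent.H591R3.PHG.val
          simp only [mem_filter, mem_univ, true_and]
          rcases hj : s j with _ | b
          · simp
          · cases b with
            | true => exact absurd ⟨j, hj⟩ hs
            | false => simp
        have h3 : (fun z : Fin K → Bool => Φ (val s z) (fun q => F q z)) =
            fun z : Fin K → Bool =>
            if ∃ y, act ((stp act (fun q => F q z) (fun _ => nx (Fe F0 lo (lv s z))))^[T] []) =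
              Act.out y ∧ IsGreatest (Fe F0 lo (lv s z)) y then (1 : ℝ) else 0 := by
          funext z
          rw [hΦ]
          simp only
          rw [h2]
          unfold PHI
          rfl
        rw [h3]
        refine h1.trans ?_
        rw [hβ, hγ]
        simp only
        rw [if_neg hs]
        push_cast
        linarith
    set Fl : List Bool → (Idx (Fin K) (8 * n :: pw as) → Bool) → Bool := fun y z =>
      leafO θ.V (orc Nb (og hpos a z)) (ndp (fun y => θ.p.eval y.tail.length) θ.κ y).1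
        (ndp (fun y => θ.p.eval y.tail.length) θ.κ y).2 with hFl
    have hFd : ∀ y : List Bool, y.length ≤ L + θ.κ * (2 * m + 1) → DTr (2 ^ (2 * u)) (Fl y) := by
      intro y hy
      obtain ⟨h1, h2⟩ := ndp_len (fun y => θ.p.eval y.tail.length) θ.κ y
      have h3 : DTr (2 ^ (2 * u)) (fun a : Fin Nb → Bool => leafO θ.V (orc Nb a)
          (ndp (fun y => θ.p.eval y.tail.length) θ.κ y).1
          (ndp (fun y => θ.p.eval y.tail.length) θ.κ y).2) := by
        refine dtr_leafO θ.V Nb _ _ (le_trans (eval_mono _ ?_) hc.hV) Nat.one_le_two_pow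
        have h4 : θ.p.eval (ndp (fun y => θ.p.eval y.tail.length) θ.κ y).1.tail.length ≤
            θ.p.eval (L + θ.κ * (2 * m + 1)) := by
          apply eval_mono
          rw [List.length_tail]
          omega
        have h5 : (ndp (fun y => θ.p.eval y.tail.length) θ.κ y).2.length ≤
            θ.κ * θ.p.eval (L + θ.κ * (2 * m + 1)) := by
          rw [h2]
          exact Nat.mul_le_mul_left _ h4
        omega
      exact DTr_overwrite (pg hpos) a h3
    have h1 := cp_leaf (X := Fin K) hn5 hc.hu Φ (fun v O => PHI_le _ _ _ _) L hγ0 hβ0 hb θ.κ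
      (pw as) (by rw [pw, List.length_map]; exact hlenas) m Fl hFd true
    rw [hlaw (Fin K) β] at h1
    have h2 : Ex law' β ≤ 16 / 2 ^ n := hcnt K n T hn5 law' hinv hK1 hK2 hc.hT
    have hO : ∀ (z : Idx (Fin K) (8 * n :: pw as) → Bool) (q : List Bool),
        q.length ≤ L → OB θ.V θ.p θ.κ (orc Nb (og hpos a z)) q = QF m Fl θ.κ true q z := by
      intro z q hq
      exact (ob_qf θ.V θ.p θ.κ m (fun z => orc Nb (og hpos a z)) q ((eval_mono _ (by
        rw [List.length_tail]; omega)).trans hc.hm) z).symm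
    have hset : ∀ z : Idx (Fin K) (8 * n :: pw as) → Bool,
        FS θ.κ N (orc Nb (og hpos a z)) =
          Fv (Tr (8 * n :: pw as) (val (fun _ => none) z)) := by
      intro z
      ext y
      rw [mem_FS hN1]
      have htree : ∀ j : Fin K, HV θ.κ N (orc Nb (og hpos a z)) (lo + j.val) =
          Tr (8 * n :: pw as) (val (fun _ => none) z) j := fun j =>
        fold_tree hxi hxl hpos a z j
      have hoth : ∀ y, y < lo → HV θ.κ N (orc Nb (og hpos a z)) y =
          HV θ.κ N (orc Nb a) y := by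
        intro y hy
        refine fold_other hxl hpos a z (bitsOf N y) (length_bitsOf _ _) (fun j h => ?_) _ _
        have h3 := bitsOf_inj (n := N) (by have := j.isLt; omega) (by omega) h
        omega
      constructor
      · rintro ⟨hy, h3⟩
        by_cases hylo : y < lo
        · left
          refine ⟨hylo, ?_⟩
          rw [hoth y hylo] at h3
          exact h3
        · right
          refine ⟨⟨y - lo, by omega⟩, ?_, by show y = lo + (y - lo); omega⟩
          rw [mem_filter]
          refine ⟨mem_univ _, ?_⟩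
          rw [← htree]
          have h4 : lo + ((⟨y - lo, by omega⟩ : Fin K) : ℕ) = y := by
            show lo + (y - lo) = y
            omega
          rw [h4]
          rcases h3 with h3 | h3
          · omega
          · exact h3
      · rintro (h3 | ⟨j, hj, rfl⟩)
        · have h4 : y < lo := h3.1
          refine ⟨by omega, ?_⟩
          rw [hoth y h4]
          exact h3.2
        · have hjl := j.isLt
          refine ⟨by omega, Or.inr ?_⟩
          rw [htree]
          exact (mem_filter.1 hj).2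
    have hA : Ex (ber (1 / 2)) (fun z : Idx (Fin K) (8 * n :: pw as) → Bool =>
        SUC θ N (orc Nb (og hpos a z))) =
        EP (1 / 2) (8 * n :: pw as) (fun _ => none) Φ (fun q => QF m Fl θ.κ true q) := by
      unfold EP
      congr 1
      funext z
      rw [hΦ]
      simp only
      unfold SUC
      rw [hset z]
      exact PHI_congr (hFvN _) hactL (hO z)
    rw [hA]
    refine h1.trans ?_
    linarith
  refine le_trans (Ex_mono unif_nonneg hkey) (le_of_eq ?_)
  exact Ex_const (I := Fin Nb) unif_sum _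

end Pool.Agent.W911.CE
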