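import Pool.Agent.W911.CE.Defs

/-!
# Part CNT: the number of true trees
-/

set_option autoImplicit false

namespace Pool.Agent.W911.CE

open Finset Pool.Agent.NPC H568R2 Pool.Agent.H676
open Pool.Agent.H620R2.Gauge Pool.Agent.H591R3.PHG Pool.Agent.H591R3.PHG.FinalAux
open Pool.Agent.W911.AL Pool.Agent.W911.KM

namespace CntAux

/-! ### Moments -/

section

variable {I A : Type} [Fintype I] [DecidableEq I] [Fintype A] {w : A → ℝ}

theorem marg (hl : ∑ v, w v = 1) (F : A → ℝ) (i : I) :
    Ex w (fun s : I → A => F (s i)) = ∑ v, w v * F v := by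
  rw [Ex_resample hl _ i]
  have h : (fun ω : I → A => ∑ a, w a * F (Function.update ω i a i)) =
      fun _ => ∑ a, w a * F a := by
    funext ω
    exact Finset.sum_congr rfl fun a _ => by rw [Function.update_self]
  rw [h]
  exact Ex_const hl _

theorem cov (hl : ∑ v, w v = 1) {g : A → ℝ} (hg : ∑ v, w v * g v = 0) {i j : I}
    (hij : i ≠ j) : Ex w (fun s : I → A => g (s i) * g (s j)) = 0 := by
  rw [Ex_resample hl _ i]
  have h : (fun ω : I → A => ∑ a, w a * (g (Function.update ω i a i) *
      g (Function.update ω i a j))) = fun _ => 0 := by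
    funext ω
    have h1 : ∀ a, w a * (g (Function.update ω i a i) * g (Function.update ω i a j)) =
        w a * g a * g (ω j) := by
      intro a
      rw [Function.update_self, Function.update_of_ne hij.symm, mul_assoc]
    rw [Finset.sum_congr rfl fun a _ => h1 a, ← Finset.sum_mul, hg, zero_mul]
  rw [h]
  exact Ex_const hl _

theorem second (hl : ∑ v, w v = 1) {g : A → ℝ} (hg : ∑ v, w v * g v = 0) :
    Ex w (fun s : I → A => (∑ i, g (s i)) ^ 2) = Fintype.card I * ∑ v, w v * g v ^ 2 := by
  have h1 : (fun s : I → A => (∑ i, g (s i)) ^ 2) =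
      fun s => ∑ i, ∑ j, g (s i) * g (s j) := by
    funext s
    rw [sq, Finset.sum_mul_sum]
  rw [h1, Ex_sum]
  have h2 : ∀ i : I, Ex w (fun s : I → A => ∑ j, g (s i) * g (s j)) =
      ∑ v, w v * g v ^ 2 := by
    intro i
    rw [Ex_sum, Finset.sum_eq_single i]
    · have h3 : (fun s : I → A => g (s i) * g (s i)) =
          fun s => (fun v => g v ^ 2) (s i) := by
        funext s
        exact (sq _).symm
      rw [h3]
      exact marg hl (fun v => g v ^ 2) i
    · intro j _ hj
      exact cov hl hg fun h => hj h.symm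
    · intro h
      exact absurd (Finset.mem_univ i) h
  rw [Finset.sum_congr rfl fun i _ => h2 i, Finset.sum_const, Finset.card_univ, nsmul_eq_mul]

end

/-- the indicator of a true undetermined tree -/
noncomputable def ii (v : Option Bool × Bool) : ℝ := if v.1 = none ∧ v.2 = true then 1 else 0

/-- the indicator of a tree which is determined to be true -/
noncomputable def ki (v : Option Bool × Bool) : ℝ := if v.1 = some true then 1 else 0

theorem ki_nonneg (v : Option Bool × Bool) : 0 ≤ ki v := by
  unfold ki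
  split_ifs <;> norm_num

/-- the weights of the pairs -/
noncomputable def ww (law : Option Bool → ℝ) (t : ℝ) (v : Option Bool × Bool) : ℝ :=
  law v.1 * ber t v.2

theorem sum_ww (law : Option Bool → ℝ) (t : ℝ) (F : Option Bool × Bool → ℝ) :
    ∑ v, ww law t v * F v = law none * (t * F (none, true) + (1 - t) * F (none, false)) +
      law (some true) * (t * F (some true, true) + (1 - t) * F (some true, false)) +
      law (some false) * (t * F (some false, true) + (1 - t) * F (some false, false)) := by
  rw [Fintype.sum_prod_type, GoodProbAux.sum_option_bool]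
  simp only [Fintype.sum_bool, ww, ber, if_true]
  simp only [Bool.false_eq_true, if_false]
  ring

theorem sum_ww_one {law : Option Bool → ℝ} (hl : ∑ v, law v = 1) (t : ℝ) :
    ∑ v, ww law t v = 1 := by
  have h := sum_ww law t (fun _ => 1)
  simp only [mul_one] at h
  rw [h]
  rw [GoodProbAux.sum_option_bool] at hl
  linear_combination hl

theorem sum_ki (law : Option Bool → ℝ) (t : ℝ) : ∑ v, ww law t v * ki v = law (some true) := by
  rw [sum_ww]
  simp [ki]

theorem sum_gg {law : Option Bool → ℝ} (hl : ∑ v, law v = 1) (t : ℝ) :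
    ∑ v, ww law t v * (ii v - law none * t) = 0 := by
  rw [sum_ww]
  rw [GoodProbAux.sum_option_bool] at hl
  simp only [ii]
  simp
  linear_combination -(law none * t) * hl

theorem sum_gg2 {law : Option Bool → ℝ} (hl : ∑ v, law v = 1) (t : ℝ) :
    ∑ v, ww law t v * (ii v - law none * t) ^ 2 = law none * t * (1 - law none * t) := by
  rw [sum_ww]
  rw [GoodProbAux.sum_option_bool] at hl
  simp only [ii]
  simp
  linear_combination (law none * t) ^ 2 * hl

open Classical in
theorem card_lv {K : ℕ} (q : ℝ) (s : Fin K → Option Bool) (z : Fin K → Bool) :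
    ∑ i, (ii (s i, z i) - q) = ((lv s z).card : ℝ) - K * q := by
  unfold ii lv
  rw [Finset.sum_sub_distrib, Finset.sum_const, Finset.card_univ, Fintype.card_fin, nsmul_eq_mul,
    ← Finset.sum_filter, Finset.sum_const, nsmul_eq_mul, mul_one]

end CntAux

open CntAux

/-- Part CNT -/
theorem cnt_stm : CntStm := by
  classical
  intro K n T hn law hI hlo hhi hT
  have hN : (32 : ℝ) ≤ 2 ^ n := by
    calc (32 : ℝ) = 2 ^ 5 := by norm_num
      _ ≤ 2 ^ n := pow_le_pow_right₀ (by norm_num) hn
  have hT' : 4 * (T : ℝ) ≤ 2 ^ n := by exact_mod_cast hT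
  have e2 : (2 : ℝ) ^ (2 * n) = (2 ^ n) ^ 2 := by rw [← pow_mul, mul_comm]
  have e1 : (2 : ℝ) ^ (n + 1) = 2 * 2 ^ n := by rw [pow_succ, mul_comm]
  have hrare := hI.rare
  rw [e2] at hrare
  rw [e1] at hhi
  have ht0 : (0 : ℝ) ≤ 1 / 2 ^ (4 * n) := by positivity
  have ht1 : (1 : ℝ) / 2 ^ (4 * n) ≤ 1 := by
    rw [div_le_one (by positivity)]
    exact one_le_pow₀ (by norm_num)
  have hdiv : law none / 2 ^ (4 * n) = law none * (1 / 2 ^ (4 * n)) := by ring
  rw [hdiv] at hrare hlo hhi
  generalize (1 : ℝ) / 2 ^ (4 * n) = t at hrare hlo hhi ht0 ht1 ⊢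
  generalize (2 : ℝ) ^ n = N at hrare hlo hhi hN hT' ⊢
  have hN0 : 0 < N := by linarith
  have hl := hI.sum
  have hq0 : 0 ≤ law none := hI.nonneg _
  have hR0 : 0 ≤ law (some true) := hI.nonneg _
  have hK0 : (0 : ℝ) ≤ K := Nat.cast_nonneg K
  have hber : ∑ b, ber t b = 1 := by
    rw [Fintype.sum_bool]
    simp [ber]
  have hw0 : ∀ v, 0 ≤ ww law t v := by
    intro v
    refine mul_nonneg (hI.nonneg _) ?_
    unfold ber
    split_ifs <;> linarith
  have hw1 := sum_ww_one hl t
  -- numbers
  set u : ℝ := 1 / N with hu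
  have hu0 : 0 < u := by positivity
  have hu1 : u ≤ 1 / 32 := one_div_le_one_div_of_le (by norm_num) hN
  have hNu : N * u = 1 := by rw [hu]; field_simp
  have f2 : 1 / N ^ 2 = u ^ 2 := by rw [hu]; field_simp
  have f16 : 16 / N = 16 * u := by rw [hu]; ring
  rw [f2] at hrare
  rw [f16]
  have hKR : K * law (some true) ≤ 4 * u := by
    calc (K : ℝ) * law (some true) ≤ K * (2 * u ^ 2 * (law none * t + law (some true))) :=
          mul_le_mul_of_nonneg_left hrare hK0
      _ = 2 * u ^ 2 * (K * (law none * t + law (some true))) := by ring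
      _ ≤ 2 * u ^ 2 * (2 * N) := mul_le_mul_of_nonneg_left hhi (by positivity)
      _ = 4 * u * (N * u) := by ring
      _ = 4 * u := by rw [hNu, mul_one]
  have hKR0 : 0 ≤ K * law (some true) := mul_nonneg hK0 hR0
  set mu : ℝ := K * (law none * t) with hmu
  have hmu1 : N - 4 * u ≤ mu := by
    have : K * (law none * t + law (some true)) = mu + K * law (some true) := by rw [hmu]; ring
    linarith
  have hmu2 : mu ≤ 2 * N := by
    have : K * (law none * t + law (some true)) = mu + K * law (some true) := by rw [hmu]; ring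
    linarith
  have hmu0 : 0 ≤ mu := by linarith
  have hlam : N / 2 ≤ mu - T := by linarith
  have hlam0 : 0 < mu - T := by linarith
  -- the pairs
  have hpair : Ex law (fun s : Fin K → Option Bool => (if ∃ j, s j = some true then (1 : ℝ) else 0) +
      Ex (ber t) (fun z : Fin K → Bool => if (lv s z).card ≤ T then (1 : ℝ) else 0)) =
      Ex (fun c : Option Bool × Bool => law c.1 * ber t c.2)
        (fun ω : Fin K → Option Bool × Bool => (if ∃ j, (ω j).1 = some true then (1 : ℝ) else 0) +
          if (lv (fun i => (ω i).1) (fun i => (ω i).2)).card ≤ T then (1 : ℝ) else 0) := by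
    rw [Ex_prod]
    congr 1
    funext s
    rw [Ex_add]
    congr 1
    exact (Ex_const hber _).symm
  rw [hpair]
  have hpt : ∀ ω : Fin K → Option Bool × Bool,
      (if ∃ j, (ω j).1 = some true then (1 : ℝ) else 0) +
        (if (lv (fun i => (ω i).1) (fun i => (ω i).2)).card ≤ T then (1 : ℝ) else 0) ≤
      ∑ i, ki (ω i) + 1 / (mu - T) ^ 2 * (∑ i, (ii (ω i) - law none * t)) ^ 2 := by
    intro ω
    refine add_le_add ?_ ?_
    · split_ifs with h
      · obtain ⟨j, hj⟩ := h
        have h3 : ki (ω j) ≤ ∑ i, ki (ω i) :=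
          Finset.single_le_sum (f := fun i => ki (ω i)) (fun i _ => ki_nonneg _)
            (Finset.mem_univ j)
        have h4 : ki (ω j) = 1 := by
          unfold ki
          rw [if_pos hj]
        linarith
      · exact Finset.sum_nonneg fun i _ => ki_nonneg _
    · split_ifs with h
      · have h1 := card_lv (law none * t) (fun i => (ω i).1) (fun i => (ω i).2)
        have h1' : ∑ i, (ii (ω i) - law none * t) =
            ((lv (fun i => (ω i).1) (fun i => (ω i).2)).card : ℝ) - mu := h1
        rw [h1']
        have h2 : ((lv (fun i => (ω i).1) (fun i => (ω i).2)).card : ℝ) ≤ T := by exact_mod_cast h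
        have h3 : (mu - T) ^ 2 ≤
            (((lv (fun i => (ω i).1) (fun i => (ω i).2)).card : ℝ) - mu) ^ 2 := by
          rw [← neg_sq (((lv (fun i => (ω i).1) (fun i => (ω i).2)).card : ℝ) - mu)]
          exact pow_le_pow_left₀ hlam0.le (by linarith) 2
        rw [one_div, inv_mul_eq_div, le_div_iff₀ (by positivity), one_mul]
        exact h3
      · positivity
  refine (Ex_mono (w := ww law t) hw0 hpt).trans ?_
  rw [Ex_add, Ex_smul, Ex_sum, second hw1 (sum_gg hl t), sum_gg2 hl]
  have h1 : ∀ i : Fin K, Ex (ww law t) (fun s : Fin K → Option Bool × Bool => ki (s i)) =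
      law (some true) := by
    intro i
    rw [marg hw1 ki i, sum_ki]
  rw [Finset.sum_congr rfl fun i _ => h1 i, Finset.sum_const, Finset.card_univ, Fintype.card_fin,
    nsmul_eq_mul]
  have h2 : 1 / (mu - T) ^ 2 * (K * (law none * t * (1 - law none * t))) ≤ 8 * u := by
    have h3 : K * (law none * t * (1 - law none * t)) ≤ 2 * N := by
      have : K * (law none * t * (1 - law none * t)) = mu - mu * (law none * t) := by
        rw [hmu]; ring
      have h4 : 0 ≤ mu * (law none * t) := mul_nonneg hmu0 (mul_nonneg hq0 ht0)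
      linarith
    have h5 : (N / 2) ^ 2 ≤ (mu - T) ^ 2 := pow_le_pow_left₀ (by linarith) hlam 2
    rw [one_div, inv_mul_eq_div, div_le_iff₀ (by positivity)]
    calc K * (law none * t * (1 - law none * t)) ≤ 2 * N := h3
      _ = 8 * u * (N / 2) ^ 2 := by
        have : 8 * u * (N / 2) ^ 2 = 2 * N * (N * u) := by ring
        rw [this, hNu, mul_one]
      _ ≤ 8 * u * (mu - T) ^ 2 := mul_le_mul_of_nonneg_left h5 (by positivity)
  linarith

end Pool.Agent.W911.CE
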