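import Pool.Agent.W911.KM.Defs

/-!
# Counterexample computations for optimization problems relative to a random oracle:
the objects and the statements of the parts
-/

set_option autoImplicit false

namespace Pool.Agent.W911.CE

open Finset Pool.Agent.NPC H568R2 Pool.Agent.H676
open Pool.Agent.H620R2.Gauge Pool.Agent.H591R3.PHG Pool.Agent.H591R3.PHG.FinalAux
open Pool.Agent.W911.AL Pool.Agent.W911.KM

/-! ## Optimization problems -/

/-- The predicate `B(x, y, z)`: `y` is a feasible solution for `x` and `z` is not a better one. The
feasible solutions for `x` are the numbers `y` with `C x y`, and `ρ` is the objective function. -/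
def Bq (C : ℕ → ℕ → Prop) (ρ : ℕ → ℕ) (x y z : ℕ) : Prop := C x y ∧ (ρ y < ρ z → ¬ C x z)

/-- `y` is an optimal solution for `x`. -/
def Optimal (C : ℕ → ℕ → Prop) (ρ : ℕ → ℕ) (x y : ℕ) : Prop := ∀ z ≤ x, Bq C ρ x y z

/-- The binary predicate `C` of numbers (in binary notation) is in the class `Π_i` relative to the
oracle `A`. -/
def IsPi (A : Oracle) (i : ℕ) (C : ℕ → ℕ → Prop) : Prop :=
  ∃ L : Set (List Bool), IsSigma A (fun _ => i) Lᶜ ∧
    ∀ x y, C x y ↔ pairBits (Nat.bits x) (Nat.bits y) ∈ L

/-! ## Counterexample computations -/

/-- what a counterexample computation does next: it stops with an output, or it puts a question to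
the oracle, or it presents a number to the adversary -/
inductive Act : Type
  | out (y : ℕ)
  | ask (q : List Bool)
  | pres (y : ℕ)

/-- the action given by a string -/
def prs : List Bool → Act
  | [] => .out 0
  | [false] => .out 0
  | true :: z => .out (valB z)
  | false :: false :: q => .ask q
  | false :: true :: y => .pres (valB y)

/-- the string for an answer of the adversary: yes, or no with a counterexample -/
def code : Option ℕ → List Bool
  | none => []
  | some z => true :: Nat.bits z

/-- One round: the state is the list of all the answers so far. -/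
def stp (act : List Bool → Act) (O : Oracle) (S : List Bool → ℕ → Option ℕ) (a : List Bool) :
    List Bool :=
  match act a with
  | .out _ => a
  | .ask q => pairBits [O q] a
  | .pres y => pairBits (code (S a y)) a

/-- A counterexample computation. On input `x` and after the answers `a`, the string `D ⟨x, a⟩`
tells what comes next; `D` is computable in polynomial time, and the number of rounds is bounded by
the polynomial `p` in the length of `x`. -/
structure CAlg : Type where
  /-- the next action -/
  D : List Bool → List Bool
  /-- it is computable in polynomial time -/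
  poly : PolyTime D
  /-- the bound for the number of rounds -/
  p : Polynomial ℕ

/-- the next action on input `x` after the answers `a` -/
def CAlg.act (M : CAlg) (x : ℕ) (a : List Bool) : Act := prs (M.D (pairBits (Nat.bits x) a))

/-- the output on input `x`, with oracle `O` and with the strategy `S` of the adversary -/
def CAlg.out (M : CAlg) (O : Oracle) (S : List Bool → ℕ → Option ℕ) (x : ℕ) : Option ℕ :=
  match M.act x ((stp (M.act x) O S)^[M.p.eval (Nat.size x)] []) with
  | .out y => some y
  | _ => none

/-- The strategy `S` of the adversary is correct for the input `x`: asked whether `y` is optimal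
it answers yes if it is, and otherwise it gives a counterexample `z`. The strategy may depend on
the history `a` of the computation. -/
def Correct (C : ℕ → ℕ → Prop) (ρ : ℕ → ℕ) (x : ℕ) (S : List Bool → ℕ → Option ℕ) : Prop :=
  ∀ a y, (S a y = none ↔ Optimal C ρ x y) ∧ ∀ z, S a y = some z → z ≤ x ∧ ¬ Bq C ρ x y z

open Classical in
/-- the strategy which gives the least better solution -/
noncomputable def nx (Fe : Set ℕ) (y : ℕ) : Option ℕ :=
  if y ∈ Fe then (if h : ∃ z, z ∈ Fe ∧ y < z then some (Nat.find h) else none) else some 0

/-! ## The hard problem -/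

/-- the parameter of the trees -/
def cn (N : ℕ) : ℕ := N / 64

/-- the value of the tree number `y` for inputs of length `N` -/
def HV (κ N : ℕ) (A : Oracle) (y : ℕ) : Bool := HC κ (cn N) A (bitsOf N y)

/-- the feasible solutions -/
def CC (κ : ℕ) (A : Oracle) (x y : ℕ) : Prop :=
  y ≤ x ∧ (y = 0 ∨ HV κ (Nat.size x) A y = true)

/-! ## The statements of the parts -/

section

variable {K : ℕ}

open Classical in
/-- the undetermined trees which are true -/
noncomputable def lv (s : Fin K → Option Bool) (z : Fin K → Bool) : Finset (Fin K) :=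
  univ.filter (fun j => s j = none ∧ z j = true)

/-- the feasible solutions, if those below `lo` are the elements of `F0` -/
def Fe (F0 : Set ℕ) (lo : ℕ) (J : Finset (Fin K)) : Set ℕ := F0 ∪ {y | ∃ j ∈ J, y = lo + j.val}

end

open Classical in
/-- Part BASE -/
def BaseStm : Prop := ∀ (K N lo T r : ℕ) (t : ℝ) (F0 : Set ℕ) (s : Fin K → Option Bool)
  (act : List Bool → Act) (O : (Fin K → Bool) → Oracle), 0 ≤ t → t ≤ 1 → lo + K ≤ 2 ^ N →
  (∀ y ∈ F0, y < lo) → 1 ≤ r →
  (∀ a q, a.length ≤ T * (2 * N + 5) → act a = Act.ask q → DTr r (fun z => O z q)) →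
  Ex (ber t) (fun z : Fin K → Bool =>
    if ∃ y, act ((stp act (O z) (fun _ => nx (Fe F0 lo (lv s z))))^[T] []) = Act.out y ∧
      IsGreatest (Fe F0 lo (lv s z)) y then (1 : ℝ) else 0) ≤
    Ex (ber t) (fun z : Fin K → Bool => if (lv s z).card ≤ T then (1 : ℝ) else 0) +
      (T + 1) * ((T + 1) * r) * t

open Classical in
/-- Part CNT -/
def CntStm : Prop := ∀ (K n T : ℕ), 5 ≤ n → ∀ law : Option Bool → ℝ, Inv n law →
  2 ^ n ≤ (K : ℝ) * (law none / 2 ^ (4 * n) + law (some true)) →
  (K : ℝ) * (law none / 2 ^ (4 * n) + law (some true)) ≤ 2 ^ (n + 1) → 4 * T ≤ 2 ^ n →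
  Ex law (fun s : Fin K → Option Bool => (if ∃ j, s j = some true then (1 : ℝ) else 0) +
    Ex (ber (1 / 2 ^ (4 * n))) (fun z : Fin K → Bool =>
      if (lv s z).card ≤ T then (1 : ℝ) else 0)) ≤ 16 / 2 ^ n

/-- Part PI -/
def PiStm : Prop := ∀ (κ : ℕ) (A : Oracle), IsPi A κ (CC κ A)

end Pool.Agent.W911.CE
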