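import Pool.Agent.W911.CE.Low
import Pool.Agent.W911.KM.Meas

/-!
# The main theorem
-/

set_option autoImplicit false

set_option maxHeartbeats 800000

namespace Pool.Agent.W911.CE

open Finset Filter MeasureTheory Pool.Agent.NPC H568R2 Pool.Agent.H676 Pool.Agent.H622R2
open Pool.Agent.H620R2.Gauge Pool.Agent.H591R3.PHG Pool.Agent.H591R3.PHG.FinalAux
open Pool.Agent.W911.AL Pool.Agent.W911.KM

/-- The counterexample computation `M` with oracle `O` computes the optimization problem: it gives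
an optimal solution for every input and every correct strategy of the adversary. -/
def Computes (M : CAlg) (O : Oracle) (C : ℕ → ℕ → Prop) (ρ : ℕ → ℕ) : Prop :=
  ∀ x S, Correct C ρ x S → ∃ y, M.out O S x = some y ∧ Optimal C ρ x y

/-- the feasible solutions -/
def FX (C : ℕ → ℕ → Prop) (x : ℕ) : Set ℕ := {y | C x y}

/-- the strategy which gives the least better solution -/
noncomputable def SX (C : ℕ → ℕ → Prop) (x : ℕ) : List Bool → ℕ → Option ℕ :=
  fun _ => nx (FX C x)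

theorem optimal_greatest {C : ℕ → ℕ → Prop} (hC : ∀ x y, C x y → y ≤ x) {x y : ℕ}
    (h : Optimal C id x y) : IsGreatest (FX C x) y := by
  refine ⟨(h 0 (Nat.zero_le _)).1, fun z hz => ?_⟩
  have hz' : C x z := hz
  by_contra hcon
  push Not at hcon
  exact (h z (hC x z hz')).2 hcon hz'

theorem sx_correct {C : ℕ → ℕ → Prop} (hC : ∀ x y, C x y → y ≤ x) (x : ℕ) :
    Correct C id x (SX C x) := by
  classical
  intro a y
  unfold SX nx
  by_cases h1 : y ∈ FX C x
  · rw [if_pos h1]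
    by_cases h2 : ∃ z, z ∈ FX C x ∧ y < z
    · rw [dif_pos h2]
      refine ⟨⟨fun h => by simp at h, fun h => ?_⟩, fun z hz => ?_⟩
      · obtain ⟨z, hz, hyz⟩ := h2
        exact absurd hz ((h z (hC x z hz)).2 hyz)
      · simp only [Option.some.injEq] at hz
        have h3 := Nat.find_spec h2
        rw [hz] at h3
        exact ⟨hC x z h3.1, fun hB => hB.2 h3.2 h3.1⟩
    · rw [dif_neg h2]
      refine ⟨⟨fun _ z _ => ⟨h1, fun hyz hz => h2 ⟨z, hz, hyz⟩⟩, fun _ => rfl⟩,
        fun z hz => by simp at hz⟩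
  · rw [if_neg h1]
    refine ⟨⟨fun h => by simp at h, fun h => absurd (h 0 (Nat.zero_le _)).1 h1⟩, fun z hz => ?_⟩
    simp only [Option.some.injEq] at hz
    rw [← hz]
    exact ⟨Nat.zero_le _, fun hB => h1 hB.1⟩

theorem ce_ae (hbase : BaseStm) (hcnt : CntStm) (hsiz : SizStm) (hpi : PiStm) :
    ∀ᵐ A ∂fair, ∀ i : ℕ, ∃ C : ℕ → ℕ → Prop, (∀ x, C x 0) ∧ (∀ x y, C x y → y ≤ x) ∧
      IsPi A i C ∧ ∃ S : ℕ → List Bool → ℕ → Option ℕ, (∀ x, Correct C id x (S x)) ∧
      ∀ B : Set (List Bool), IsSigma A (fun _ => i) B → ∀ M : CAlg, ∀ᶠ N : ℕ in atTop,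
        ¬ ∃ y, M.out (join A B) (S (2 ^ N - 1)) (2 ^ N - 1) = some y ∧
          Optimal C id (2 ^ N - 1) y := by
  filter_upwards [ae_lose hbase hcnt hsiz] with A hA
  intro κ
  have hC : ∀ x y, CC κ A x y → y ≤ x := fun x y h => h.1
  refine ⟨CC κ A, fun x => ⟨Nat.zero_le _, Or.inl rfl⟩, hC, hpi κ A, SX (CC κ A),
    fun x => sx_correct hC x, ?_⟩
  rintro B ⟨V', p, ⟨V, hV⟩, hB⟩ M
  have hOB := ob_join hV hB
  filter_upwards [hA ⟨M, V, p, κ⟩, eventually_ge_atTop 1] with N h1 hN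
  rintro ⟨y, h2, h3⟩
  apply h1
  have h4 := optimal_greatest hC h3
  have h5 : M.act (2 ^ N - 1) ((stp (M.act (2 ^ N - 1)) (OB V p κ A)
      (fun _ => nx (FS κ N A)))^[M.p.eval N] []) = Act.out y := by
    rw [hOB]
    unfold CAlg.out at h2
    rw [size_pred hN] at h2
    have e1 : SX (CC κ A) (2 ^ N - 1) = fun _ => nx (FS κ N A) := rfl
    rw [e1] at h2
    split at h2
    · rename_i y' h6
      simp only [Option.some.injEq] at h2
      rw [h6, h2]
    · simp at h2
  show PHI (M.act (2 ^ N - 1)) (M.p.eval N) (FS κ N A) (OB V p κ A) = 1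
  unfold PHI
  exact if_pos ⟨y, h5, h4⟩

end Pool.Agent.W911.CE
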