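import Pool.Agent.W911.CE.Blk
import Pool.Agent.W911.AL.Low

/-!
# Almost every oracle
-/

set_option autoImplicit false

set_option maxHeartbeats 800000

namespace Pool.Agent.W911.CE

open Finset Filter MeasureTheory Pool.Agent.NPC H568R2 Pool.Agent.H676 Pool.Agent.H622R2
open Pool.Agent.H620R2.Gauge Pool.Agent.H591R3.PHG Pool.Agent.H591R3.PHG.FinalAux
open Pool.Agent.W911.AL Pool.Agent.W911.KM
open Pool.Agent.W911.IB (Ew bt law_local orc_pre_eq)

theorem poly_cn (P : Polynomial ℕ) : ∀ᶠ N : ℕ in atTop, P.eval N ≤ 2 ^ (cn N / 8) := by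
  have h1 := poly_le_exp (P.comp (Polynomial.C 64 * (Polynomial.X + 1)))
  have h2 : Tendsto (fun N => cn N) atTop atTop := by
    unfold cn
    exact Nat.tendsto_div_const_atTop (by norm_num)
  filter_upwards [h2.eventually h1] with N h3
  refine le_trans ?_ h3
  rw [Polynomial.eval_comp]
  apply eval_mono
  simp only [Polynomial.eval_mul, Polynomial.eval_add, Polynomial.eval_X, Polynomial.eval_C,
    Polynomial.eval_one]
  unfold cn
  omega

/-- the polynomials for the bounds -/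
noncomputable def PL (θ : Par) (qb : Polynomial ℕ) : Polynomial ℕ :=
  qb.comp (2 * Polynomial.X + 1 + θ.M.p * (2 * Polynomial.X + 5))

noncomputable def Pm (θ : Par) (qb : Polynomial ℕ) : Polynomial ℕ := θ.p.comp (PL θ qb)

noncomputable def PT (θ : Par) (qb : Polynomial ℕ) : Polynomial ℕ :=
  PL θ qb + Polynomial.C θ.κ * (2 * Pm θ qb + 1)

noncomputable def PB (θ : Par) (qb : Polynomial ℕ) : Polynomial ℕ :=
  θ.V.p.comp (2 * PT θ qb + 1 + Polynomial.C θ.κ * θ.p.comp (PT θ qb)) + 4 * θ.M.p +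
    PT θ qb + Polynomial.X + Polynomial.C (θ.κ + 5) + 18 * Polynomial.X ^ 2

theorem eval_PL (θ : Par) (qb : Polynomial ℕ) (N : ℕ) :
    (PL θ qb).eval N = qb.eval (2 * N + 1 + θ.M.p.eval N * (2 * N + 5)) := by
  simp [PL, Polynomial.eval_comp]

theorem eval_Pm (θ : Par) (qb : Polynomial ℕ) (N : ℕ) :
    (Pm θ qb).eval N = θ.p.eval ((PL θ qb).eval N) := by
  simp [Pm, Polynomial.eval_comp]

theorem eval_PT (θ : Par) (qb : Polynomial ℕ) (N : ℕ) :
    (PT θ qb).eval N = (PL θ qb).eval N + θ.κ * (2 * (Pm θ qb).eval N + 1) := by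
  simp [PT]

theorem eval_PB (θ : Par) (qb : Polynomial ℕ) (N : ℕ) :
    (PB θ qb).eval N = θ.V.p.eval (2 * (PT θ qb).eval N + 1 +
      θ.κ * θ.p.eval ((PT θ qb).eval N)) + 4 * θ.M.p.eval N + (PT θ qb).eval N + N +
      (θ.κ + 5) + 18 * N ^ 2 := by
  simp [PB, Polynomial.eval_comp]

/-- the condition for the length `N` -/
def Big (θ : Par) (qb : Polynomial ℕ) (N : ℕ) : Prop :=
  5 ≤ cn N ∧ (PB θ qb).eval N ≤ 2 ^ (cn N / 8)

theorem big_ev (θ : Par) (qb : Polynomial ℕ) : ∀ᶠ N : ℕ in atTop, Big θ qb N := by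
  have h2 : Tendsto (fun N => cn N) atTop atTop := by
    unfold cn
    exact Nat.tendsto_div_const_atTop (by norm_num)
  filter_upwards [poly_cn (PB θ qb), h2.eventually (eventually_ge_atTop 5)] with N h3 h4
  exact ⟨h4, h3⟩

theorem big_cond {θ : Par} {qb : Polynomial ℕ} {N : ℕ} (h : Big θ qb N) :
    Cond θ qb N (cn N / 8) ((PL θ qb).eval N) ((Pm θ qb).eval N) := by
  obtain ⟨h1, h2⟩ := h
  rw [eval_PB] at h2
  refine ⟨h1, Nat.mul_div_le _ _, (eval_PL θ qb N).ge, (eval_Pm θ qb N).ge, ?_, ?_⟩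
  · rw [← eval_PT]
    calc _ ≤ 2 ^ (cn N / 8) := by omega
      _ ≤ 2 ^ (2 * (cn N / 8)) := Nat.pow_le_pow_right (by norm_num) (by omega)
  · calc _ ≤ 2 ^ (cn N / 8) := by omega
      _ ≤ 2 ^ cn N := Nat.pow_le_pow_right (by norm_num) (by omega)

theorem num {n u κ T T' : ℕ} (hu : 8 * u ≤ n) (hT : T + 1 ≤ 2 ^ u)
    (hT' : κ + T' + 3 + n ≤ 2 ^ (2 * u)) :
    ((T : ℝ) + 1) * ((T + 1) * 2 ^ (2 * u)) * (1 / 2 ^ (4 * n)) + err κ T' (2 ^ (2 * u)) +
      16 / 2 ^ n ≤ 18 / 2 ^ n := by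
  have h1 : ((T : ℝ) + 1) * ((T + 1) * 2 ^ (2 * u)) * (1 / 2 ^ (4 * n)) ≤ 1 / 2 ^ n := by
    have h2 : (T : ℝ) + 1 ≤ 2 ^ u := by exact_mod_cast hT
    have h3 : ((T : ℝ) + 1) * ((T + 1) * 2 ^ (2 * u)) ≤ 2 ^ u * (2 ^ u * 2 ^ (2 * u)) :=
      mul_le_mul h2 (mul_le_mul_of_nonneg_right h2 (by positivity)) (by positivity)
        (by positivity)
    rw [mul_one_div, div_le_div_iff₀ (by positivity) (by positivity), one_mul]
    calc ((T : ℝ) + 1) * ((T + 1) * 2 ^ (2 * u)) * 2 ^ n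
        ≤ 2 ^ u * (2 ^ u * 2 ^ (2 * u)) * 2 ^ n := mul_le_mul_of_nonneg_right h3 (by positivity)
      _ = 2 ^ (4 * u + n) := by
          rw [← pow_add, ← pow_add, ← pow_add]; congr 1; ring
      _ ≤ 2 ^ (4 * n) := pow_le_pow_right₀ (by norm_num) (by omega)
  have h4 : err κ T' (2 ^ (2 * u)) ≤ 1 / 2 ^ n := by
    unfold err
    have h1 : (κ : ℝ) ≤ 2 ^ κ := by exact_mod_cast (Nat.lt_two_pow_self (n := κ)).le
    calc (κ : ℝ) * (2 * (2 ^ (T' + 2) * (1 / 2) ^ (2 ^ (2 * u) + 1)))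
        ≤ 2 ^ κ * (2 * (2 ^ (T' + 2) * (1 / 2) ^ (2 ^ (2 * u) + 1))) :=
          mul_le_mul_of_nonneg_right h1 (by positivity)
      _ = 2 ^ (κ + (T' + 2) + 1) * (1 / 2) ^ (2 ^ (2 * u) + 1) := by
          rw [pow_succ, pow_add]; ring
      _ ≤ 2 ^ (κ + (T' + 2) + 1) * (1 / 2) ^ ((κ + (T' + 2) + 1) + n) := by
          apply mul_le_mul_of_nonneg_left _ (by positivity)
          exact pow_le_pow_of_le_one (by norm_num) (by norm_num) (by omega)
      _ = 1 / 2 ^ n := by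
          generalize κ + (T' + 2) + 1 = a
          have hx1 : (2 : ℝ) ^ a * (1 / 2) ^ a = 1 := by
            rw [← mul_pow]; norm_num
          have hx2 : (1 / 2 : ℝ) ^ n = 1 / 2 ^ n := by
            rw [div_pow, one_pow]
          rw [pow_add (1 / 2 : ℝ) a n, ← mul_assoc, hx1, one_mul, hx2]
  have h5 : (18 : ℝ) / 2 ^ n = 1 / 2 ^ n + 1 / 2 ^ n + 16 / 2 ^ n := by ring
  rw [h5]
  linarith

theorem hv_local {κ N : ℕ} {A A' : Oracle} {y : ℕ}
    (h : ∀ q : List Bool, q.length ≤ N + (exl (cn N) κ).sum + 8 * cn N → A q = A' q) :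
    HV κ N A y = HV κ N A' y := by
  unfold HV HC
  rw [fold_local _ (L := N) (fun q hq => ?_) _ (by rw [length_bitsOf])]
  unfold bitv
  rw [decide_eq_decide]
  refine forall_congr' fun i => forall_congr' fun hi => ?_
  rw [h]
  rw [List.length_append, List.length_replicate]
  omega

theorem SUC_local {θ : Par} {qb : Polynomial ℕ} (hqb : ∀ y : List Bool, (θ.M.D y).length ≤
    qb.eval y.length) {N : ℕ} (hN : 1 ≤ N) : ∃ N0 : ℕ, ∀ Nb ≥ N0, ∀ A : Oracle,
    SUC θ N A = SUC θ N (orc Nb (pre Nb A)) := by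
  obtain ⟨b, hb⟩ := ob_congr θ.V θ.p θ.κ
  set L : ℕ := qb.eval (2 * N + 1 + θ.M.p.eval N * (2 * N + 5)) with hL
  set n : ℕ := N + (exl (cn N) θ.κ).sum + 8 * cn N + b.eval L with hn
  refine ⟨2 ^ (n + 1), fun Nb hNb A => ?_⟩
  have h1 : ∀ q : List Bool, q.length ≤ n → A q = orc Nb (pre Nb A) q := fun q hq =>
    (orc_pre_eq hNb A q hq).symm
  have h2 : FS θ.κ N A = FS θ.κ N (orc Nb (pre Nb A)) := by
    ext y
    rw [mem_FS hN, mem_FS hN, hv_local (A := A) (A' := orc Nb (pre Nb A))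
      (fun q hq => h1 q (by omega))]
  unfold SUC
  rw [h2]
  have h0 : 0 < 2 ^ N := by positivity
  refine PHI_congr (N := N) (L := L) (fun y hy => ((mem_FS hN).1 hy).1)
    (fun a q ha h => act_len hqb (by omega) a q ha h) (fun q hq => ?_)
  apply hb
  intro y hy
  apply h1
  have := eval_mono b hq
  omega

/-- the oracles for which the computation is right on the input `2 ^ N - 1` -/
def Win (θ : Par) (N : ℕ) : Set Oracle := {A | SUC θ N A = 1}

theorem win_bound (hbase : BaseStm) (hcnt : CntStm) (hsiz : SizStm) (θ : Par)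
    {qb : Polynomial ℕ} (hqb : ∀ y : List Bool, (θ.M.D y).length ≤ qb.eval y.length) {N : ℕ}
    (h : Big θ qb N) : fair (Win θ N) ≤ ENNReal.ofReal (18 / 2 ^ cn N) := by
  classical
  have hc := big_cond h
  have hN : 1 ≤ N := by
    have h1 := h.1
    unfold cn at h1
    omega
  obtain ⟨N0, hN0⟩ := SUC_local hqb hN
  set Nb : ℕ := max N0 (2 ^ (N + (exl (cn N) θ.κ).sum + 8 * cn N + 1)) with hNb
  have h1 := cblock hbase hcnt hsiz θ hqb hc (Nb := Nb) (le_max_right _ _)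
  have h2 := hN0 Nb (le_max_left _ _)
  have h3 : Win θ N = {A : Oracle | (fun a : Fin Nb → Bool => SUC θ N (orc Nb a) = 1)
      (pre Nb A)} := by
    ext A
    show SUC θ N A = 1 ↔ SUC θ N (orc Nb (pre Nb A)) = 1
    rw [h2 A]
  have h4 := law_local (fun _ => ⟨1 / 2, by norm_num, by norm_num⟩) Nb
    (fun a : Fin Nb → Bool => SUC θ N (orc Nb a) = 1)
  rw [Ew_fair] at h4
  rw [h3]
  refine le_trans (le_of_eq h4) ?_
  apply ENNReal.ofReal_le_ofReal
  refine le_trans (Ex_mono unif_nonneg (G := fun a : Fin Nb → Bool => SUC θ N (orc Nb a))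
    fun a => ?_) (h1.trans ?_)
  · split_ifs with h6
    · rw [h6]
    · exact PHI_nn _ _ _ _
  · have h5 := h.2
    rw [eval_PB] at h5
    have h6 : 2 ^ (cn N / 8) ≤ 2 ^ (2 * (cn N / 8)) :=
      Nat.pow_le_pow_right (by norm_num) (by omega)
    have h7 : cn N ≤ N := by unfold cn; omega
    refine num (Nat.mul_div_le _ _) (by omega) ?_
    rw [← eval_PT]
    omega

instance : Countable CAlg := by
  have h1 : Countable {f : List Bool → List Bool // PolyTime f} := countable_polyTime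
  have h2 := countable_polynomial
  let F : CAlg → {f : List Bool → List Bool // PolyTime f} × Polynomial ℕ :=
    fun M => (⟨M.D, M.poly⟩, M.p)
  have hF : Function.Injective F := by
    rintro ⟨D, hD, p⟩ ⟨D', hD', p'⟩ h
    simp only [F, Prod.mk.injEq, Subtype.mk.injEq] at h
    obtain ⟨rfl, rfl⟩ := h
    rfl
  exact hF.countable

instance : Countable Par := by
  have h2 := countable_polynomial
  let F : Par → CAlg × Alg × Polynomial ℕ × ℕ := fun θ => (θ.M, θ.V, θ.p, θ.κ)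
  have hF : Function.Injective F := by
    rintro ⟨M, V, p, b⟩ ⟨M', V', p', b'⟩ h
    simp only [F, Prod.mk.injEq] at h
    obtain ⟨rfl, rfl, rfl, rfl⟩ := h
    rfl
  exact hF.countable

theorem ae_lose (hbase : BaseStm) (hcnt : CntStm) (hsiz : SizStm) :
    ∀ᵐ A ∂fair, ∀ θ : Par, ∀ᶠ N : ℕ in atTop, A ∉ Win θ N := by
  rw [ae_all_iff]
  intro θ
  classical
  obtain ⟨qb, hqb⟩ := θ.M.exists_qb
  set s : ℕ → Set Oracle := fun N => if Big θ qb N then Win θ N else ∅ with hs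
  have hμ : ∀ N, fair (s N) ≤ ENNReal.ofReal (1 / (N : ℝ) ^ 2) := by
    intro N
    by_cases hc : Big θ qb N
    · have e : s N = Win θ N := if_pos hc
      rw [e]
      refine (win_bound hbase hcnt hsiz θ hqb hc).trans (ENNReal.ofReal_le_ofReal ?_)
      have hN : 1 ≤ N := by
        have h1 := hc.1
        unfold cn at h1
        omega
      have h2 := hc.2
      rw [eval_PB] at h2
      have h3 : 2 ^ (cn N / 8) ≤ 2 ^ cn N := Nat.pow_le_pow_right (by norm_num) (by omega)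
      have h4 : 18 * N ^ 2 ≤ 2 ^ cn N := by omega
      have h5 : (18 : ℝ) * (N : ℝ) ^ 2 ≤ 2 ^ cn N := by exact_mod_cast h4
      have h6 : (0 : ℝ) < N := by exact_mod_cast hN
      rw [div_le_div_iff₀ (by positivity) (by positivity), one_mul]
      exact h5
    · have e : s N = ∅ := if_neg hc
      rw [e, measure_empty]
      exact bot_le
  have hsum : ∑' N, fair (s N) ≠ ⊤ := by
    refine ne_top_of_le_ne_top ?_ (ENNReal.tsum_le_tsum hμ)
    rw [← ENNReal.ofReal_tsum_of_nonneg (fun n => by positivity)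
      (Real.summable_one_div_nat_pow.2 (by norm_num))]
    exact ENNReal.ofReal_ne_top
  filter_upwards [ae_eventually_notMem hsum] with A hA
  filter_upwards [hA, big_ev θ qb] with N h1 h2
  have e : s N = Win θ N := if_pos h2
  rwa [e] at h1

end Pool.Agent.W911.CE
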