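import Pool.Agent.W911.CE.Defs
import Pool.Agent.W911.KM.Sig

/-!
# The hard optimization problem has a feasibility predicate in `Π_κ`
-/

set_option autoImplicit false

namespace Pool.Agent.W911.CE

open Finset Pool.Agent.NPC H568R2 Pool.Agent.H676 Pool.Agent.H622R2
open Pool.Agent.H620R2.Gauge Pool.Agent.H591R3.PHG
open Pool.Agent.W911.AL Pool.Agent.W911.AL.Up Pool.Agent.W911.KM Pool.Agent.W911.KM.Sig

namespace PiP

/-! ## The parameters -/

/-- the parameter of the trees for the pair `z` -/
def nz (z : List Bool) : ℕ := min (unpair z).1.length z.length / 64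

/-- the address of the root for the pair `z` -/
def qz (z : List Bool) : List Bool :=
  ((unpair z).2 ++ (List.replicate (unpair z).1.length ()).map (fun _ => false)).take
    (unpair z).1.length

theorem nz_le (z : List Bool) : 64 * nz z ≤ z.length := by
  have h := Nat.div_mul_le_self (min (unpair z).1.length z.length) 64
  have h2 : min (unpair z).1.length z.length ≤ z.length := min_le_right _ _
  unfold nz
  omega

theorem upoly_nz : UPoly nz := by
  have h1 : UPoly (fun z : List Bool => z.length) := UPoly.length Poly.id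
  have h2 : UPoly (fun z : List Bool => (unpair z).1.length) := UPoly.length (Poly.fst poly_unpair)
  refine UPoly.of_le (Poly.div (Poly.min h2.toPoly h1.toPoly) (NPC.Poly.const 64)) h1 fun z => ?_
  have := nz_le z
  omega

theorem poly_qz : Poly qz := by
  have h2 : UPoly (fun z : List Bool => (unpair z).1.length) := UPoly.length (Poly.fst poly_unpair)
  exact R1.poly_take (Poly.append (Poly.snd poly_unpair)
    (NPC.Poly.map (F := fun _ _ => false) h2 (NPC.Poly.const false))) h2

/-- the end of the computation, for the input `z` and all the quantified strings `u` -/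
def dec (κ : ℕ) (z u : List Bool) : St :=
  (step z.length)^[κ] (true, (exl (nz z) κ).reverse, u, qz z)

theorem poly_dec (κ : ℕ) : Poly (fun p : List Bool × List Bool => dec κ p.1 p.2) := by
  have hn : UPoly (fun p : List Bool × List Bool => nz p.1) := upoly_nz.comp (Poly.fst Poly.id)
  have hm : UPoly (fun p : List Bool × List Bool => p.1.length) := UPoly.length (Poly.fst Poly.id)
  have hS : Poly (fun p : List Bool × List Bool => (exl (nz p.1) κ).reverse) := poly_exl hn κ
  have hR : Poly (fun p : List Bool × List Bool => qz p.1) := poly_qz.comp (Poly.fst Poly.id)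
  obtain ⟨r, hr⟩ := hS.sz_le
  obtain ⟨r', hr'⟩ := hR.sz_le
  refine (Poly.iterLen (σ := St) (F := fun (p : List Bool × List Bool) s =>
      step p.1.length s)
    (s := fun p : List Bool × List Bool => (true, (exl (nz p.1) κ).reverse, p.2, qz p.1))
    (UPoly.const κ)
    (Poly.pair (NPC.Poly.const true) (Poly.pair hS (Poly.pair (Poly.snd Poly.id) hR)))
    (poly_step (hm.comp (Poly.fst Poly.id)) (Poly.snd Poly.id))
    (r + Polynomial.C 2 * r' + Polynomial.C 8 * Polynomial.X + Polynomial.C 20) ?_).congr ?_
  · rintro ⟨x, u⟩ i _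
    obtain ⟨h2, h2'⟩ := iter_len x.length i (true, (exl (nz x) κ).reverse, u, qz x)
    have h3 : ∀ s : St, sz s ≤ 3 + sz s.2.1 + (4 * s.2.2.1.length + 1) +
        (4 * s.2.2.2.length + 1) + 3 := by
      rintro ⟨b, r, v, q⟩
      have e1 := sz_bool_le b
      have e3 := sz_listBool_le v
      have e4 := sz_listBool_le q
      simp only [sz_pair]
      omega
    have h4 := sz_listBool_ge (qz x)
    have h5 := sz_listBool_ge u
    have h6 := hr (x, u)
    have h6' := hr' (x, u)
    show sz ((step x.length)^[i] (true, (exl (nz x) κ).reverse, u, qz x)) ≤ _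
    refine (h3 _).trans ?_
    simp only [Polynomial.eval_add, Polynomial.eval_mul, Polynomial.eval_C,
      Polynomial.eval_X]
    have h7 : sz (x, u) = sz x + sz u + 1 := sz_pair x u
    simp only at h2 h2' h6 h6'
    rw [h7] at h6 h6' ⊢
    omega
  · rintro ⟨x, u⟩
    rw [List.length_replicate]
    rfl

/-- the questions to the oracle -/
def Qs (κ : ℕ) (y : List Bool) : List (List Bool) :=
  (List.range (8 * nz (unpair y).1)).map (fun l =>
    (dec κ (unpair y).1 (unpair y).2).2.2.2 ++
      (List.replicate (min l (8 * nz (unpair y).1)) ()).map (fun _ => true))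

theorem poly_decy (κ : ℕ) :
    Poly (fun y : List Bool => dec κ (unpair y).1 (unpair y).2) :=
  (poly_dec κ).comp poly_unpair

theorem upoly_nzy : UPoly (fun y : List Bool => nz (unpair y).1) :=
  upoly_nz.comp (Poly.fst poly_unpair)

theorem poly_Qs (κ : ℕ) : Poly (Qs κ) := by
  have h0 := poly_decy κ
  have h2 : UPoly (fun y : List Bool => 8 * nz (unpair y).1) :=
    UPoly.mul (UPoly.const 8) upoly_nzy
  have h3 : UPoly (fun p : List Bool × ℕ => min p.2 (8 * nz (unpair p.1).1)) :=
    UPoly.of_le (Poly.min (Poly.snd Poly.id) (h2.toPoly.comp (Poly.fst Poly.id)))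
      (h2.comp (Poly.fst Poly.id)) (fun p => min_le_right _ _)
  have h4 : Poly (fun p : List Bool × ℕ => (dec κ (unpair p.1).1 (unpair p.1).2).2.2.2 ++
      (List.replicate (min p.2 (8 * nz (unpair p.1).1)) ()).map (fun _ => true)) :=
    Poly.append (Poly.snd (Poly.snd (Poly.snd (h0.comp (Poly.fst Poly.id)))))
      (NPC.Poly.map (F := fun _ _ => true) h3 (NPC.Poly.const true))
  exact NPC.Poly.map (F := fun y l => (dec κ (unpair y).1 (unpair y).2).2.2.2 ++
    (List.replicate (min l (8 * nz (unpair y).1)) ()).map (fun _ => true)) h2.range h4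

/-- the tests which do not depend on the quantified strings -/
def t1 (z : List Bool) : Bool := decide (valB (unpair z).1 < valB (unpair z).2)

/-- the tests which do not depend on the quantified strings -/
def t2 (z : List Bool) : Bool := !decide (valB (unpair z).2 < 1)

theorem poly_t1 : Poly t1 :=
  Poly.decide_lt (Poly.valBits (Poly.fst poly_unpair)) (Poly.valBits (Poly.snd poly_unpair))

theorem poly_t2 : Poly t2 :=
  Poly.not (Poly.decide_lt (Poly.valBits (Poly.snd poly_unpair)) (NPC.Poly.const 1))

/-- the verifier -/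
def Ver (κ : ℕ) (A : Oracle) (y : List Bool) : List Bool :=
  [t1 (unpair y).1 || (t2 (unpair y).1 &&
    decide (((Qs κ y).map A).all (fun b => !b) = !(dec κ (unpair y).1 (unpair y).2).1))]

theorem isFP_Ver (κ : ℕ) (A : Oracle) : IsFP A (Ver κ A) := by
  have h0 : Poly (fun p : List Bool × List Bool => dec κ (unpair p.1).1 (unpair p.1).2) :=
    (poly_decy κ).comp (Poly.fst Poly.id)
  have h1 : Poly (fun p : List Bool × List Bool => p.2.all (fun b => !b)) :=
    Poly.all (p := fun _ b => !b) (Poly.snd Poly.id) (Poly.not (Poly.snd Poly.id))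
  have hz : Poly (fun p : List Bool × List Bool => (unpair p.1).1) :=
    (Poly.fst poly_unpair).comp (Poly.fst Poly.id)
  have h2 : Poly (fun p : List Bool × List Bool =>
      [t1 (unpair p.1).1 || (t2 (unpair p.1).1 &&
        decide (p.2.all (fun b => !b) = !(dec κ (unpair p.1).1 (unpair p.1).2).1))]) :=
    Poly.cons (Poly.or (poly_t1.comp hz) (Poly.and (poly_t2.comp hz)
      (Poly.decide_eq h1 (Poly.not (Poly.fst h0))))) (NPC.Poly.const [])
  exact IsFP.tt (A := A) (H := fun p =>
    [t1 (unpair p.1).1 || (t2 (unpair p.1).1 &&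
      decide (p.2.all (fun b => !b) = !(dec κ (unpair p.1).1 (unpair p.1).2).1))])
    (poly_Qs κ) h2

theorem Ver_iff (κ : ℕ) (A : Oracle) (z u : List Bool) :
    Ver κ A (pairBits z u) = [true] ↔
      (t1 z = true ∨ (t2 z = true ∧
        bitv A (8 * nz z) (dec κ z u).2.2.2 = !(dec κ z u).1)) := by
  have h1 : ((Qs κ (pairBits z u)).map A).all (fun b => !b) =
      bitv A (8 * nz z) (dec κ z u).2.2.2 := by
    rw [Bool.eq_iff_iff]
    unfold bitv Qs
    rw [List.all_eq_true, decide_eq_true_iff, unpair_pairBits]
    simp only [List.mem_map, List.mem_range, Bool.not_eq_true', List.map_replicate]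
    constructor
    · intro h l hl
      have h2 := h (A ((dec κ z u).2.2.2 ++ List.replicate l true)) ⟨_, ⟨l, hl, rfl⟩, by
        rw [Nat.min_eq_left hl.le]⟩
      exact h2
    · rintro h b ⟨_, ⟨l, hl, rfl⟩, rfl⟩
      rw [Nat.min_eq_left hl.le]
      exact h l hl
  unfold Ver
  rw [h1, unpair_pairBits]
  simp only [List.cons.injEq, and_true, Bool.or_eq_true, Bool.and_eq_true, decide_eq_true_eq]

/-! ## Correctness -/

theorem alt_or {m : ℕ} {R C' : List Bool → Prop} {C : Prop} : ∀ (j : ℕ) (b : Bool)
    (u : List Bool), (∀ v, C' (u ++ v) ↔ C) →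
      (Alt m (fun v => C' v ∨ R v) j b u ↔ C ∨ Alt m R j b u) := by
  intro j
  induction j with
  | zero =>
    intro b u h
    have h1 := h []
    rw [List.append_nil] at h1
    cases b <;> exact or_congr_left h1
  | succ j ih =>
    intro b u h
    have h1 : ∀ (b : Bool) (w : List Bool),
        (Alt m (fun v => C' v ∨ R v) j b (u ++ w) ↔ C ∨ Alt m R j b (u ++ w)) := by
      intro b w
      refine ih b (u ++ w) fun v => ?_
      rw [List.append_assoc]
      exact h _
    by_cases hC : C
    · cases b with
      | true =>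
        simp only [Alt, h1]
        exact ⟨fun _ => Or.inl hC, fun _ => ⟨List.replicate m false, by simp, Or.inl hC⟩⟩
      | false =>
        simp only [Alt, h1]
        exact ⟨fun _ => Or.inl hC, fun _ w _ => Or.inl hC⟩
    · cases b with
      | true =>
        simp only [Alt, h1, hC, false_or]
      | false =>
        simp only [Alt, h1, hC, false_or]

/-- the language of the pairs -/
def LL (κ : ℕ) (A : Oracle) : Set (List Bool) :=
  {z | valB (unpair z).2 ≤ valB (unpair z).1 ∧
    (valB (unpair z).2 = 0 ∨ HC κ (nz z) A (qz z) = true)}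

theorem main (κ : ℕ) (A : Oracle) (z : List Bool) :
    z ∈ (LL κ A)ᶜ ↔ Alt z.length (fun u => Ver κ A (pairBits z u) = [true]) κ true [] := by
  have h3 := alt_iff A z.length (8 * nz z) κ (exl (nz z) κ).reverse (qz z)
    κ 0 true [] (exl (nz z) κ).reverse (qz z) (by omega) (by simp) rfl
    (by rw [List.length_reverse, exl_length])
    (fun a ha => (exl_le (nz z) κ a (List.mem_reverse.1 ha)).trans (nz_le z))
  rw [List.foldr_reverse, Bool.not_true] at h3
  have h4 : Alt z.length (fun u => Ver κ A (pairBits z u) = [true]) κ true [] ↔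
      (t1 z = true ∨ (t2 z = true ∧ HC κ (nz z) A (qz z) = false)) := by
    refine (Alt_congr κ true [] fun v _ => Ver_iff κ A z v).trans ?_
    refine (alt_or (m := z.length) (C' := fun _ => t1 z = true) (C := t1 z = true)
      (R := fun v => t2 z = true ∧ bitv A (8 * nz z) (dec κ z v).2.2.2 = !(dec κ z v).1)
      κ true [] (fun _ => Iff.rfl)).trans (or_congr_right ?_)
    refine (alt_and (m := z.length) (C' := fun _ => t2 z = true) (C := t2 z = true)
      (R := fun v => bitv A (8 * nz z) (dec κ z v).2.2.2 = !(dec κ z v).1)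
      κ true [] (fun _ => Iff.rfl)).trans (and_congr_right fun _ => ?_)
    exact h3
  rw [h4]
  unfold LL t1 t2
  rw [Set.mem_compl_iff, Set.mem_ofPred_eq, decide_eq_true_iff, Bool.not_eq_true',
    decide_eq_false_iff_not]
  have h5 : HC κ (nz z) A (qz z) = false ↔ ¬ HC κ (nz z) A (qz z) = true := by simp
  rw [h5]
  constructor
  · intro h
    by_cases h6 : valB (unpair z).1 < valB (unpair z).2
    · exact Or.inl h6
    · right
      push Not at h6
      refine ⟨fun h7 => h ⟨h6, Or.inl (by omega)⟩, fun h7 => h ⟨h6, Or.inr h7⟩⟩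
  · rintro (h | ⟨h, h'⟩) ⟨h6, h7⟩
    · omega
    · rcases h7 with h7 | h7
      · omega
      · exact h' h7

theorem length_pairBits_ge (X Y : List Bool) : X.length ≤ (pairBits X Y).length := by
  simp [pairBits]
  omega

theorem qz_pair (x y : ℕ) (h : y ≤ x) :
    qz (pairBits (Nat.bits x) (Nat.bits y)) = bitsOf (Nat.size x) y := by
  unfold qz
  rw [unpair_pairBits]
  simp only [List.map_replicate]
  rw [Nat.size_eq_bits_len x]
  have h1 : (Nat.bits y).length ≤ Nat.size x := by
    rw [Nat.size_eq_bits_len]
    exact Nat.size_le_size h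
  set N := Nat.size x with hN
  set w := (Nat.bits y ++ List.replicate N false).take N with hw
  have h2 : w.length = N := by
    rw [hw, List.length_take, List.length_append, List.length_replicate]
    omega
  have h3 : valB w = y := by
    have e1 : w = Nat.bits y ++ List.replicate (N - (Nat.bits y).length) false := by
      rw [hw, List.take_append, List.take_of_length_le h1, List.take_replicate]
      congr 2
      omega
    have e2 : ∀ k : ℕ, valB (List.replicate k false) = 0 := by
      intro k
      induction k with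
      | zero => rfl
      | succ k ih => rw [List.replicate_succ, valB_cons, ih]; simp
    rw [e1, valB_append, valB_bits, e2]
    simp
  have h4 := bitsOf_valB w
  rw [h2, h3] at h4
  exact h4.symm

theorem nz_pair (x y : ℕ) :
    nz (pairBits (Nat.bits x) (Nat.bits y)) = cn (Nat.size x) := by
  unfold nz cn
  rw [unpair_pairBits]
  simp only
  rw [min_eq_left (length_pairBits_ge _ _), Nat.size_eq_bits_len]

end PiP

/-- the hard optimization problem has a feasibility predicate in `Π_κ` -/
theorem pi_stm : PiStm := by
  intro κ A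
  refine ⟨PiP.LL κ A, ⟨PiP.Ver κ A, Polynomial.X, PiP.isFP_Ver κ A, fun z => ?_⟩, ?_⟩
  · rw [Polynomial.eval_X]
    exact PiP.main κ A z
  · intro x y
    unfold CC HV PiP.LL
    rw [Set.mem_ofPred_eq, PiP.nz_pair, unpair_pairBits]
    simp only [valB_bits]
    refine and_congr_right fun h => ?_
    rw [PiP.qz_pair x y h]

end Pool.Agent.W911.CE
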