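import Pool.Agent.W911.CE.Core

/-!
# The histories of counterexample computations
-/

set_option autoImplicit false

namespace Pool.Agent.W911.CE

open Finset Pool.Agent.NPC H568R2 Pool.Agent.H676 Pool.Agent.H622R2
open Pool.Agent.H620R2.Gauge Pool.Agent.H591R3.PHG Pool.Agent.H591R3.PHG.FinalAux
open Pool.Agent.W911.AL Pool.Agent.W911.KM

open Classical in
theorem nx_lt {Fe : Set ℕ} {N : ℕ} (hFe : ∀ y ∈ Fe, y < 2 ^ N) {y z : ℕ} (h : nx Fe y = some z) :
    z < 2 ^ N := by
  unfold nx at h
  split_ifs at h with h1 h2
  · simp only [Option.some.injEq] at h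
    rw [← h]
    exact hFe _ (Nat.find_spec h2).1
  · simp only [Option.some.injEq] at h
    rw [← h]
    positivity

theorem hist_len {act : List Bool → Act} {O : Oracle} {S : List Bool → ℕ → Option ℕ} {N : ℕ}
    (hS : ∀ a y z, S a y = some z → z < 2 ^ N) : ∀ k : ℕ,
    ((stp act O S)^[k] []).length ≤ k * (2 * N + 5) := by
  intro k
  induction k with
  | zero => simp
  | succ k ih =>
    rw [Function.iterate_succ_apply']
    set a := (stp act O S)^[k] [] with ha
    have h1 : (k + 1) * (2 * N + 5) = k * (2 * N + 5) + (2 * N + 5) := by ring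
    unfold stp
    rcases act a with y | q | y
    · simp only
      omega
    · simp only
      rw [length_pairBits, List.length_singleton]
      omega
    · simp only
      rw [length_pairBits]
      rcases hz : S a y with _ | z
      · simp only [code, List.length_nil]
        omega
      · have h2 : (Nat.bits z).length ≤ N := by
          rw [Nat.size_eq_bits_len]
          exact Nat.size_le.2 (hS a y z hz)
        simp only [code, List.length_cons]
        omega

theorem hist_congr {act : List Bool → Act} {O O' : Oracle} {S : List Bool → ℕ → Option ℕ}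
    {N T L : ℕ} (hS : ∀ a y z, S a y = some z → z < 2 ^ N)
    (hL : ∀ a q, a.length ≤ T * (2 * N + 5) → act a = Act.ask q → q.length ≤ L)
    (hO : ∀ q : List Bool, q.length ≤ L → O q = O' q) : ∀ k ≤ T,
    (stp act O S)^[k] [] = (stp act O' S)^[k] [] := by
  intro k
  induction k with
  | zero => intro _; rfl
  | succ k ih =>
    intro hk
    rw [Function.iterate_succ_apply', Function.iterate_succ_apply', ← ih (by omega)]
    have h1 := hist_len (act := act) (O := O) hS k
    set a := (stp act O S)^[k] [] with ha
    have h2 : a.length ≤ T * (2 * N + 5) := h1.trans (Nat.mul_le_mul_right _ (by omega))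
    unfold stp
    rcases hact : act a with y | q | y
    · rfl
    · simp only
      rw [hO q (hL a q h2 hact)]
    · rfl

open Classical in
/-- the indicator of the success of the computation -/
noncomputable def PHI (act : List Bool → Act) (T : ℕ) (F : Set ℕ) (O : Oracle) : ℝ :=
  if ∃ y, act ((stp act O (fun _ => nx F))^[T] []) = Act.out y ∧ IsGreatest F y then 1 else 0

theorem PHI_le (act : List Bool → Act) (T : ℕ) (F : Set ℕ) (O : Oracle) : PHI act T F O ≤ 1 := by
  unfold PHI
  split_ifs <;> norm_num

theorem PHI_nn (act : List Bool → Act) (T : ℕ) (F : Set ℕ) (O : Oracle) : 0 ≤ PHI act T F O := by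
  unfold PHI
  split_ifs <;> norm_num

theorem PHI_congr {act : List Bool → Act} {T N L : ℕ} {F : Set ℕ} (hF : ∀ y ∈ F, y < 2 ^ N)
    (hL : ∀ a q, a.length ≤ T * (2 * N + 5) → act a = Act.ask q → q.length ≤ L)
    {O O' : Oracle} (hO : ∀ q : List Bool, q.length ≤ L → O q = O' q) :
    PHI act T F O = PHI act T F O' := by
  unfold PHI
  rw [hist_congr (N := N) (fun a y z h => nx_lt hF h) hL hO T le_rfl]

theorem CAlg.exists_qb (M : CAlg) : ∃ qb : Polynomial ℕ, ∀ y : List Bool,
    (M.D y).length ≤ qb.eval y.length := by
  obtain ⟨q, hq⟩ := (poly_of_polyTime M.poly).sz_le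
  refine ⟨q.comp (Polynomial.C 4 * Polynomial.X + Polynomial.C 1), fun y => ?_⟩
  have h1 := length_lt_sz (M.D y)
  have h2 := hq y
  have h3 := eval_mono q (sz_listBool_le y)
  simp only [Polynomial.eval_comp, Polynomial.eval_add, Polynomial.eval_mul, Polynomial.eval_C,
    Polynomial.eval_X]
  omega

theorem prs_ask {s q : List Bool} (h : prs s = Act.ask q) : q.length ≤ s.length := by
  unfold prs at h
  split at h
  all_goals simp_all <;> omega

theorem act_len {M : CAlg} {qb : Polynomial ℕ} (hqb : ∀ y : List Bool,
    (M.D y).length ≤ qb.eval y.length) {x T N : ℕ} (hx : x < 2 ^ N) (a q : List Bool)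
    (ha : a.length ≤ T * (2 * N + 5)) (h : M.act x a = Act.ask q) :
    q.length ≤ qb.eval (2 * N + 1 + T * (2 * N + 5)) := by
  have h1 := prs_ask h
  have h2 := hqb (pairBits (Nat.bits x) a)
  have h3 : (pairBits (Nat.bits x) a).length ≤ 2 * N + 1 + T * (2 * N + 5) := by
    rw [length_pairBits, Nat.size_eq_bits_len]
    have := Nat.size_le.2 hx
    omega
  have h4 := eval_mono qb h3
  omega

end Pool.Agent.W911.CE
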